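import Pool.Agent.Lib.MP_1a91b9_ntH.D.UB

/-!
# Weighted engine (phase 8): the upper bound with several characters

`w q ≤ ((m - 1) + ∑ i, χ i q) / m` and `w q ≤ 1`.
-/

set_option autoImplicit false

namespace Pool.Agent.Lib.MP_1a91b9_ntQ.DW

open Finset Pool.Agent.Lib.MP_1a91b9_ntH

noncomputable section

variable {ι : Type} [DecidableEq ι] [PS ι] {τ : Type} [Fintype τ]

private theorem eubf_local (m : ℕ) (hm : 1 ≤ m) (t w : ℝ) (c : τ → ℝ) (ht0 : 0 < t) (ht : t ≤ 1 / 2)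
    (hw0 : 0 ≤ w) (hw : w ≤ ((m - 1 : ℝ) + ∑ i, c i) / m) (hc2 : ∀ i, c i ≤ 1) :
    (1 + w * t) ^ m * ((1 - t) ^ (m - 1) * ∏ i, (1 - c i * t)) ≤ 1 := by
  have hm1 : (1 : ℝ) ≤ m := by exact_mod_cast hm
  have hm0 : (0 : ℝ) < m := by linarith
  have h1t : 0 ≤ 1 - t := by linarith
  have a1 : (1 + w * t) ^ m ≤ Real.exp (m * (w * t)) := by
    rw [Real.exp_nat_mul]
    refine pow_le_pow_left₀ (by positivity) ?_ m
    have := Real.add_one_le_exp (w * t)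
    linarith
  have a2 : (1 - t) ^ (m - 1) ≤ Real.exp (((m - 1 : ℕ) : ℝ) * (-t)) := by
    rw [Real.exp_nat_mul]
    refine pow_le_pow_left₀ h1t ?_ _
    have := Real.add_one_le_exp (-t)
    linarith
  have a3 : ∏ i, (1 - c i * t) ≤ Real.exp (∑ i, -(c i * t)) := by
    rw [Real.exp_sum]
    refine prod_le_prod (fun i _ => ?_) fun i _ => ?_
    · have := hc2 i
      nlinarith
    · have := Real.add_one_le_exp (-(c i * t))
      linarith
  have a4 : 0 ≤ ∏ i, (1 - c i * t) := prod_nonneg fun i _ => by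
    have := hc2 i
    nlinarith
  calc (1 + w * t) ^ m * ((1 - t) ^ (m - 1) * ∏ i, (1 - c i * t))
      ≤ Real.exp (m * (w * t)) *
        (Real.exp (((m - 1 : ℕ) : ℝ) * (-t)) * Real.exp (∑ i, -(c i * t))) := by
        refine mul_le_mul a1 ?_ (mul_nonneg (pow_nonneg h1t _) a4) (Real.exp_pos _).le
        exact mul_le_mul a2 a3 a4 (Real.exp_pos _).le
    _ = Real.exp (m * (w * t) + (((m - 1 : ℕ) : ℝ) * (-t) + ∑ i, -(c i * t))) := by
        rw [Real.exp_add, Real.exp_add]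
    _ ≤ 1 := by
        rw [Real.exp_le_one_iff]
        have h1 : (m : ℝ) * w ≤ (m - 1 : ℝ) + ∑ i, c i := by
          rw [le_div_iff₀ hm0] at hw
          linarith
        have h2 : ((m - 1 : ℕ) : ℝ) = (m : ℝ) - 1 := by
          rw [Nat.cast_sub hm]
          simp
        rw [h2, sum_neg_distrib, ← sum_mul]
        have h3 : (m : ℝ) * w * t ≤ ((m - 1 : ℝ) + ∑ i, c i) * t :=
          mul_le_mul_of_nonneg_right h1 ht0.le
        linarith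

theorem euler_ubf {C : ℝ} {B : τ → ℝ} {χ : τ → ι → ℝ} (hz : Zt ι C) (hχ : ∀ i, CharB (χ i) (B i))
    (m : ℕ) (hm : 1 ≤ m) (w : ι → ℝ)
    (hw : ∀ q, 0 ≤ w q ∧ w q ≤ ((m - 1 : ℝ) + ∑ i, χ i q) / m) (σ : ℝ) (h1 : 1 < σ)
    (h3 : σ ≤ 3) (x : ℕ) :
    ∑ S ∈ Sx ι x, (∏ q ∈ S, w q) * (nm S : ℝ) ^ (-σ) ≤
      ((C / (σ - 1)) ^ (m - 1) * ∏ i, B i) ^ (1 / (m : ℝ)) := by
  have hm1 : (1 : ℝ) ≤ m := by exact_mod_cast hm
  have hm0 : (0 : ℝ) < m := by linarith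
  obtain ⟨S, hS⟩ : ∃ S : ℝ, S = ∑ S ∈ Sx ι x, (∏ q ∈ S, w q) * (nm S : ℝ) ^ (-σ) := ⟨_, rfl⟩
  have hS0 : 0 ≤ S := by
    rw [hS]
    apply sum_nonneg
    intro T _
    exact mul_nonneg (prod_nonneg fun q _ => (hw q).1) (by positivity)
  rw [← hS]
  have hev : ∀ᶠ P : ℕ in Filter.atTop, ∀ i, ∏ q ∈ pr ι P,
      (1 - χ i q * (PS.N q : ℝ) ^ (-σ))⁻¹ ≤ B i := by
    rw [Filter.eventually_all]
    exact fun i => (hχ i).bound σ h1 h3
  obtain ⟨P, hP1, hP2⟩ := (hev.and (Filter.eventually_ge_atTop x)).exists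
  have hsum : S ≤ ∏ q ∈ pr ι P, (1 + w q * (PS.N q : ℝ) ^ (-σ)) := by
    rw [hS]
    exact eubD_sum_le w (fun q => (hw q).1) σ x P hP2
  have hprod : (∏ q ∈ pr ι P, (1 + w q * (PS.N q : ℝ) ^ (-σ))) ^ m ≤
      (∏ q ∈ pr ι P, (1 - (PS.N q : ℝ) ^ (-σ))⁻¹) ^ (m - 1) *
        ∏ i, ∏ q ∈ pr ι P, (1 - χ i q * (PS.N q : ℝ) ^ (-σ))⁻¹ := by
    rw [prod_comm, ← prod_pow, ← prod_pow, ← prod_mul_distrib]
    apply prod_le_prod
    · intro q _
      have := (hw q).1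
      positivity
    · intro q _
      obtain ⟨ht0, ht⟩ := eubD_rpow_neg q σ h1.le
      have hc : ∀ i, χ i q ≤ 1 := fun i => (abs_le.mp ((hχ i).le q)).2
      have hloc := eubf_local m hm ((PS.N q : ℝ) ^ (-σ)) (w q) (fun i => χ i q) ht0 ht
        (hw q).1 (hw q).2 hc
      have e1 : 0 < 1 - (PS.N q : ℝ) ^ (-σ) := by linarith
      have e2 : ∀ i, 0 < 1 - χ i q * (PS.N q : ℝ) ^ (-σ) := fun i => by nlinarith [hc i]
      have e5 : 0 < ∏ i, (1 - χ i q * (PS.N q : ℝ) ^ (-σ)) := prod_pos fun i _ => e2 i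
      have e3 : 0 < (1 - (PS.N q : ℝ) ^ (-σ)) ^ (m - 1) *
          ∏ i, (1 - χ i q * (PS.N q : ℝ) ^ (-σ)) := by
        positivity
      have e4 : ((1 - (PS.N q : ℝ) ^ (-σ))⁻¹) ^ (m - 1) *
          ∏ i, (1 - χ i q * (PS.N q : ℝ) ^ (-σ))⁻¹ =
          1 / ((1 - (PS.N q : ℝ) ^ (-σ)) ^ (m - 1) *
            ∏ i, (1 - χ i q * (PS.N q : ℝ) ^ (-σ))) := by
        rw [inv_pow, one_div, mul_inv, prod_inv_distrib]
      rw [e4, le_div_iff₀ e3]
      exact hloc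
  have hZ0 : 0 ≤ ∏ q ∈ pr ι P, (1 - (PS.N q : ℝ) ^ (-σ))⁻¹ := by
    apply prod_nonneg
    intro q _
    obtain ⟨ht0, ht⟩ := eubD_rpow_neg q σ h1.le
    exact inv_nonneg.2 (by linarith)
  have hZ := hz σ P h1 h3
  have hB : 0 ≤ ∏ i, B i := prod_nonneg fun i _ => by linarith [(hχ i).hB]
  have hPB : ∏ i, ∏ q ∈ pr ι P, (1 - χ i q * (PS.N q : ℝ) ^ (-σ))⁻¹ ≤ ∏ i, B i := by
    refine prod_le_prod (fun i _ => prod_nonneg fun q _ => ?_) fun i _ => hP1 i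
    obtain ⟨ht0, ht⟩ := eubD_rpow_neg q σ h1.le
    have hc : χ i q ≤ 1 := (abs_le.mp ((hχ i).le q)).2
    exact inv_nonneg.2 (by nlinarith)
  have hfin : S ^ m ≤ (C / (σ - 1)) ^ (m - 1) * ∏ i, B i := by
    refine (pow_le_pow_left₀ hS0 hsum m).trans (hprod.trans ?_)
    refine (mul_le_mul_of_nonneg_left hPB (pow_nonneg hZ0 _)).trans ?_
    exact mul_le_mul_of_nonneg_right (pow_le_pow_left₀ hZ0 hZ _) hB
  have hroot : S = (S ^ m) ^ (1 / (m : ℝ)) := by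
    rw [← Real.rpow_natCast S m, ← Real.rpow_mul hS0, mul_one_div_cancel hm0.ne', Real.rpow_one]
  rw [hroot]
  exact Real.rpow_le_rpow (by positivity) hfin (by positivity)

/-- Comparison of the sums with `nm⁻¹` and with `nm ^ (-σ)`, `σ = 1 + 1 / log x`. -/
private theorem ubf_compare (w : ι → ℝ) (hw : ∀ q, 0 ≤ w q) (x : ℕ) (hx : 2 ≤ x) :
    ∑ S ∈ Sx ι x, (∏ q ∈ S, w q) / nm S ≤
      Real.exp 1 * ∑ S ∈ Sx ι x, (∏ q ∈ S, w q) * (nm S : ℝ) ^ (-(1 + 1 / Real.log x)) := by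
  have hxr : (2 : ℝ) ≤ x := by exact_mod_cast hx
  have hL : 0 < Real.log x := Real.log_pos (by linarith)
  rw [Finset.mul_sum]
  refine Finset.sum_le_sum fun S hS => ?_
  have hn0 : (0 : ℝ) < nm S := by exact_mod_cast one_le_nm S
  have hnx : (nm S : ℝ) ≤ x := by exact_mod_cast mem_Sx.1 hS
  have h4 : (nm S : ℝ) ^ (1 / Real.log x) ≤ Real.exp 1 := by
    refine (Real.rpow_le_rpow hn0.le hnx (by positivity)).trans (le_of_eq ?_)
    rw [Real.rpow_def_of_pos (by linarith), mul_one_div_cancel hL.ne']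
  have h5 : (nm S : ℝ)⁻¹ = (nm S : ℝ) ^ (-(1 + 1 / Real.log x)) * (nm S : ℝ) ^ (1 / Real.log x) := by
    rw [← Real.rpow_add hn0, ← Real.rpow_neg_one]
    congr 1
    ring
  have h6 : 0 ≤ (∏ q ∈ S, w q) * (nm S : ℝ) ^ (-(1 + 1 / Real.log x)) :=
    mul_nonneg (Finset.prod_nonneg fun q _ => hw q) (Real.rpow_nonneg hn0.le _)
  calc (∏ q ∈ S, w q) / nm S = ((∏ q ∈ S, w q) * (nm S : ℝ) ^ (-(1 + 1 / Real.log x))) *
        (nm S : ℝ) ^ (1 / Real.log x) := by rw [div_eq_mul_inv, h5]; ring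
    _ ≤ ((∏ q ∈ S, w q) * (nm S : ℝ) ^ (-(1 + 1 / Real.log x))) * Real.exp 1 :=
        mul_le_mul_of_nonneg_left h4 h6
    _ = _ := by ring

private theorem ubf_sigma (x : ℕ) (hx : 2 ≤ x) :
    1 < 1 + 1 / Real.log x ∧ 1 + 1 / Real.log x ≤ 3 ∧ 1 ≤ 2 * Real.log x := by
  have hxr : (2 : ℝ) ≤ x := by exact_mod_cast hx
  have hL : 0 < Real.log x := Real.log_pos (by linarith)
  have hL2 : 1 ≤ 2 * Real.log x := by
    have h1 : Real.log 2 ≤ Real.log x := Real.log_le_log (by norm_num) hxr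
    have h2 := Real.log_two_gt_d9
    linarith
  refine ⟨by have : 0 < 1 / Real.log x := one_div_pos.2 hL
             linarith, ?_, hL2⟩
  have : 1 / Real.log x ≤ 2 := by
    rw [div_le_iff₀ hL]
    exact hL2
  linarith

/-- **the upper bound with several characters** -/
theorem ubf {C1 C2 : ℝ} (h1 : Cheb ι C1) (h2 : Zt ι C2) (m : ℕ) (hm : 1 ≤ m) :
    ∃ K : ℝ, 0 < K ∧ ∀ (χ : τ → ι → ℝ) (B : τ → ℝ), (∀ i, CharB (χ i) (B i)) → ∀ w : ι → ℝ,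
      (∀ q, 0 ≤ w q ∧ w q ≤ 1 ∧ w q ≤ ((m - 1 : ℝ) + ∑ i, χ i q) / m) → ∀ x : ℕ, 2 ≤ x →
      ∑ S ∈ Sx ι x, ∏ q ∈ S, w q ≤
        K * x * Real.log x ^ (-(1 / (m : ℝ))) * (∏ i, B i) ^ (1 / (m : ℝ)) := by
  have hm0 : (0 : ℝ) < m := by exact_mod_cast (by omega : 0 < m)
  set D : ℝ := max C2 1 with hD
  set E : ℝ := max (C1 + 1) 1 with hE
  have hD1 : 1 ≤ D := le_max_right _ _
  have hE1 : 1 ≤ E := le_max_right _ _
  refine ⟨E * Real.exp 1 * (D ^ (m - 1)) ^ (1 / (m : ℝ)), by positivity, ?_⟩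
  intro χ B hχ w hw x hx
  have hxr : (2 : ℝ) ≤ x := by exact_mod_cast hx
  have hL : 0 < Real.log x := Real.log_pos (by linarith)
  have hB : 0 ≤ ∏ i, B i := prod_nonneg fun i _ => by linarith [(hχ i).hB]
  obtain ⟨s1, s2, -⟩ := ubf_sigma x hx
  have hw1 : ∀ q, 0 ≤ w q ∧ w q ≤ 1 := fun q => ⟨(hw q).1, (hw q).2.1⟩
  have hall' := hall h1 w hw1 x (by omega)
  have heul := euler_ubf h2 hχ m hm w (fun q => ⟨(hw q).1, (hw q).2.2⟩)
    (1 + 1 / Real.log x) s1 s2 x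
  have e1 : C2 / (1 + 1 / Real.log x - 1) = C2 * Real.log x := by
    rw [show 1 + 1 / Real.log x - 1 = 1 / Real.log x by ring, div_div_eq_mul_div, div_one]
  rw [e1] at heul
  have hcmp := ubf_compare w (fun q => (hw q).1) x hx
  have hC2 : 0 ≤ C2 * Real.log x := by
    have h6 := h2 (1 + 1 / Real.log x) x s1 s2
    rw [e1] at h6
    refine le_trans ?_ h6
    refine Finset.prod_nonneg fun q _ => ?_
    have hq : (2 : ℝ) ≤ PS.N q := by exact_mod_cast PS.two_le q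
    rw [inv_nonneg, sub_nonneg]
    refine Real.rpow_le_one_of_one_le_of_nonpos (by linarith) (by linarith)
  have h7 : ((C2 * Real.log x) ^ (m - 1) * ∏ i, B i) ^ (1 / (m : ℝ)) ≤
      (D ^ (m - 1)) ^ (1 / (m : ℝ)) *
        (Real.log x ^ (1 - 1 / (m : ℝ)) * (∏ i, B i) ^ (1 / (m : ℝ))) := by
    have h8 : (C2 * Real.log x) ^ (m - 1) * ∏ i, B i ≤
        D ^ (m - 1) * Real.log x ^ (m - 1) * ∏ i, B i := by
      refine mul_le_mul_of_nonneg_right ?_ hB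
      rw [← mul_pow]
      refine pow_le_pow_left₀ hC2 ?_ _
      exact mul_le_mul_of_nonneg_right (le_max_left _ _) hL.le
    refine (Real.rpow_le_rpow (by positivity) h8 (by positivity)).trans (le_of_eq ?_)
    rw [Real.mul_rpow (by positivity) hB, Real.mul_rpow (by positivity) (by positivity), mul_assoc]
    congr 2
    rw [← Real.rpow_natCast, ← Real.rpow_mul hL.le]
    congr 1
    rw [Nat.cast_sub (by omega)]
    push_cast
    field_simp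
  have hsum0 : 0 ≤ ∑ S ∈ Sx ι x, ∏ q ∈ S, w q :=
    Finset.sum_nonneg fun S _ => Finset.prod_nonneg fun q _ => (hw q).1
  have hsum1 : 0 ≤ ∑ S ∈ Sx ι x, (∏ q ∈ S, w q) / nm S :=
    Finset.sum_nonneg fun S _ => div_nonneg (Finset.prod_nonneg fun q _ => (hw q).1)
      (Nat.cast_nonneg _)
  refine le_of_mul_le_mul_right ?_ hL
  refine hall'.trans ?_
  have h9 : (C1 + 1) * x * ∑ S ∈ Sx ι x, (∏ q ∈ S, w q) / nm S ≤
      E * x * ∑ S ∈ Sx ι x, (∏ q ∈ S, w q) / nm S := by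
    refine mul_le_mul_of_nonneg_right ?_ hsum1
    exact mul_le_mul_of_nonneg_right (le_max_left _ _) (Nat.cast_nonneg _)
  refine h9.trans ?_
  have h10 : E * x * ∑ S ∈ Sx ι x, (∏ q ∈ S, w q) / nm S ≤
      E * x * (Real.exp 1 * ((D ^ (m - 1)) ^ (1 / (m : ℝ)) *
        (Real.log x ^ (1 - 1 / (m : ℝ)) * (∏ i, B i) ^ (1 / (m : ℝ))))) := by
    refine mul_le_mul_of_nonneg_left ?_ (by positivity)
    exact hcmp.trans (mul_le_mul_of_nonneg_left (heul.trans h7) (Real.exp_pos 1).le)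
  refine h10.trans (le_of_eq ?_)
  have h11 : Real.log x ^ (1 - 1 / (m : ℝ)) = Real.log x ^ (-(1 / (m : ℝ))) * Real.log x := by
    rw [← Real.rpow_add_one hL.ne']
    congr 1
    ring
  rw [h11]
  ring

end

end Pool.Agent.Lib.MP_1a91b9_ntQ.DW
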