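import Pool.Agent.Lib.MP_1a91b9_ntQ.D.Expand
import Pool.Agent.Lib.MP_1a91b9_ntQ.D.HBound

/-!
# Weighted engine (phase 8): definitions, expansion, inner sums

The summand of a family has the weight `h l q` at the prime `q` with label `l`; `h` is arbitrary.
In the application a fixed nontrivial quadratic character decides which primes are active: an
active prime has the weight `1 / m` for every label, an inactive prime has the label `l0` only.
-/

set_option autoImplicit false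
set_option linter.unusedSectionVars false

namespace Pool.Agent.Lib.MP_1a91b9_ntQ.DW

open Finset Pool.Agent.Lib.MP_1a91b9_ntH
open Pool.Agent.Lib.MP_1a91b9_ntQ Pool.Agent.Lib.MP_1a91b9_ntQ.D

noncomputable section

variable {ι : Type} [DecidableEq ι] {L : Type} [Fintype L] [DecidableEq L] {κ : Type} [Fintype κ]

/-- The summand after expansion, with the weights `h`. -/
def FG (D : Dat2 ι κ) (Λ : LS2 L ι κ) (h : L → ι → ℂ) (d : L → Finset ι) : ℂ :=
  (∏ l, ∏ q ∈ d l, h l q) * e2 (D.ee Λ d)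

/-- The local factor of the inner sum, with the weights `h`. -/
def HG (D : Dat2 ι κ) (Λ : LS2 L ι κ) (h : L → ι → ℂ) (U : Finset L) (b : L → Finset ι) (q : ι) :
    ℂ :=
  ∑ l ∈ U, h l q * e2 (xq D Λ b l q)

omit [DecidableEq ι] in
private theorem exw_fib (S : Finset ι) (f : S → L) (h : L → ι → ℂ) :
    ∏ j : S, h (f j) j = ∏ l, ∏ q ∈ famOf S f l, h l q := by
  have h1 : ∀ l, ∏ q ∈ famOf S f l, h l q =
      ∏ j ∈ univ.filter (fun j : S => f j = l), h (f j) j := by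
    intro l
    unfold famOf
    rw [prod_map]
    refine prod_congr rfl fun j hj => ?_
    rw [(mem_filter.1 hj).2]
    rfl
  rw [prod_congr rfl fun l _ => h1 l]
  exact (prod_fiberwise univ f fun j => h (f j) j).symm

theorem expandW [PS ι] (D : Dat2 ι κ) (Λ : LS2 L ι κ) (h : L → ι → ℂ) (X : ℕ) :
    ∑ S ∈ Sx ι X, ∑ f : S → L, (∏ j : S, h (f j) j) * e2 (D.eS Λ S f) =
      ∑ d ∈ Box ι L X, FG D Λ h d := by
  rw [sum_boxC]
  refine sum_congr rfl fun S _ => ?_
  rw [← sum_fun_eq_famC S fun d => FG D Λ h d]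
  refine sum_congr rfl fun f _ => ?_
  unfold FG
  rw [eS_eq, exw_fib]

private theorem inw_cross (D : Dat2 ι κ) (Λ : LS2 L ι κ) (b d : L → Finset ι) :
    ∑ l, ∑ m, Λ.Phi l m * (D.ss (b l) (d m) + D.ss (d l) (b m)) =
      ∑ l, ∑ q ∈ d l, ∑ m, (Λ.Phi l m * D.ss {q} (b m) + Λ.Phi m l * D.ss (b m) {q}) := by
  have e1 : ∀ S T : Finset ι, D.ss S T = ∑ q ∈ S, D.ss {q} T := by
    intro S T
    unfold Dat2.ss
    refine sum_congr rfl fun q _ => ?_
    rw [sum_singleton]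
  have e2 : ∀ S T : Finset ι, D.ss S T = ∑ q ∈ T, D.ss S {q} := by
    intro S T
    unfold Dat2.ss
    rw [sum_comm]
    refine sum_congr rfl fun q _ => ?_
    refine sum_congr rfl fun p _ => ?_
    rw [sum_singleton]
  have h1 : ∑ l, ∑ m, Λ.Phi l m * (D.ss (b l) (d m) + D.ss (d l) (b m)) =
      ∑ l, ∑ m, Λ.Phi m l * D.ss (b m) (d l) + ∑ l, ∑ m, Λ.Phi l m * D.ss (d l) (b m) := by
    rw [sum_comm (f := fun l m => Λ.Phi m l * D.ss (b m) (d l)), ← sum_add_distrib]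
    refine sum_congr rfl fun l _ => ?_
    rw [← sum_add_distrib]
    exact sum_congr rfl fun m _ => mul_add _ _ _
  rw [h1, ← sum_add_distrib]
  refine sum_congr rfl fun l _ => ?_
  rw [← sum_add_distrib, sum_comm]
  refine sum_congr rfl fun m _ => ?_
  rw [sum_add_distrib, ← mul_sum, ← mul_sum, ← e1, ← e2, add_comm]

private theorem inw_term (D : Dat2 ι κ) (hD : D.Sym) (Λ : LS2 L ι κ) (hΛ : Λ.OK) (h : L → ι → ℂ)
    (U : Finset L) (hU : Λ.Unl U) (b : L → Finset ι) (S : Finset ι)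
    (hS : Disjoint S (uni b)) (d : L → Finset ι) (hd : d ∈ FamU U S) :
    FG D Λ h (fun l => b l ∪ d l) =
      (∏ l, ∏ q ∈ b l, h l q) * e2 (D.ee Λ b) *
        ∏ l, ∏ q ∈ d l, h l q * e2 (xq D Λ b l q) := by
  obtain ⟨h1, h2, h3⟩ := mem_FamU.1 hd
  have h4 : Disjoint (uni b) (uni d) := by
    rw [h2]
    exact hS.symm
  have h6 : ∑ l, ∑ q ∈ d l, xq D Λ b l q = ∑ l, ∑ q ∈ d l, D.lin Λ l q +
      ∑ l, ∑ m, Λ.Phi l m * (D.ss (b l) (d m) + D.ss (d l) (b m)) := by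
    rw [inw_cross, ← sum_add_distrib]
    refine sum_congr rfl fun l _ => ?_
    rw [← sum_add_distrib]
    rfl
  have h5 : ∏ l, ∏ q ∈ d l, h l q * e2 (xq D Λ b l q) =
      (∏ l, ∏ q ∈ d l, h l q) * e2 (∑ l, ∑ q ∈ d l, xq D Λ b l q) := by
    rw [e2_sum, ← prod_mul_distrib]
    refine prod_congr rfl fun l _ => ?_
    rw [e2_sum, ← prod_mul_distrib]
  have h7 : ∏ l, ∏ q ∈ b l ∪ d l, h l q =
      (∏ l, ∏ q ∈ b l, h l q) * ∏ l, ∏ q ∈ d l, h l q := by
    rw [← prod_mul_distrib]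
    refine prod_congr rfl fun l _ => ?_
    exact prod_union (disjoint_of_subset_left (sub_uni b l)
      (disjoint_of_subset_right (sub_uni d l) h4))
  unfold FG
  rw [h5, h6, h7, ee_union D Λ b d h4, ee_unl D hD Λ hΛ U hU d h1 h3, e2_add, e2_add, e2_add]
  ring

theorem innerW (D : Dat2 ι κ) (hD : D.Sym) (Λ : LS2 L ι κ) (hΛ : Λ.OK) (h : L → ι → ℂ)
    (U : Finset L) (hU : Λ.Unl U) (b : L → Finset ι) (S : Finset ι)
    (hS : Disjoint S (uni b)) :
    ∑ d ∈ FamU U S, FG D Λ h (fun l => b l ∪ d l) =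
      (∏ l, ∏ q ∈ b l, h l q) * e2 (D.ee Λ b) * ∏ q ∈ S, HG D Λ h U b q := by
  rw [sum_congr rfl (inw_term D hD Λ hΛ h U hU b S hS), ← mul_sum,
    famU_prodC U S (fun l q => h l q * e2 (xq D Λ b l q))]
  rfl

end

end Pool.Agent.Lib.MP_1a91b9_ntQ.DW
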