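import Pool.Agent.Lib.MP_1a91b9_ntQ.D.PL
import Pool.Agent.Lib.MP_1a91b9_ntQ.DW.DefsW

/-!
# Weighted engine (phase 8): a pattern with a linked pair contributes little

The weights are at most `1` in absolute value.
-/

set_option autoImplicit false
set_option linter.unusedSectionVars false

namespace Pool.Agent.Lib.MP_1a91b9_ntQ.DW

open Finset Pool.Agent.Lib.MP_1a91b9_ntH
open Pool.Agent.Lib.MP_1a91b9_ntQ Pool.Agent.Lib.MP_1a91b9_ntQ.D

noncomputable section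

variable {ι : Type} [DecidableEq ι] [PS ι] {L : Type} [Fintype L] [DecidableEq L] {κ : Type} [Fintype κ]

private theorem linw_base_apply (l0 l1 : L) (d : L → Finset ι) (l : L) :
    base l0 l1 d l = if l = l1 then ∅ else if l = l0 then ∅ else d l := by
  unfold base
  rw [Function.update_apply, Function.update_apply]

private theorem linw_sum {M : Type} [AddCommMonoid M] {l0 l1 : L} (hne : l0 ≠ l1) (d : L → Finset ι)
    (f : L → Finset ι → M) (h0 : ∀ l, f l ∅ = 0) :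
    ∑ l, f l (d l) = f l0 (d l0) + f l1 (d l1) + ∑ l, f l (base l0 l1 d l) := by
  have key : ∀ l, f l (d l) = (if l = l0 then f l0 (d l0) else 0) + (if l = l1 then f l1 (d l1) else 0) +
      f l (base l0 l1 d l) := by
    intro l
    rw [linw_base_apply]
    by_cases h1 : l = l1
    · subst h1
      simp [hne.symm, h0]
    · by_cases h2 : l = l0
      · subst h2
        simp [h1, h0]
      · simp [h1, h2]
  rw [sum_congr rfl fun l _ => key l, sum_add_distrib, sum_add_distrib]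
  simp

private theorem linw_prod {l0 l1 : L} (hne : l0 ≠ l1) (d : L → Finset ι) (h : L → ι → ℂ) :
    ∏ l, ∏ q ∈ d l, h l q = (∏ q ∈ d l0, h l0 q) * (∏ q ∈ d l1, h l1 q) *
      ∏ l, ∏ q ∈ base l0 l1 d l, h l q := by
  have key : ∀ l, ∏ q ∈ d l, h l q = (if l = l0 then ∏ q ∈ d l0, h l0 q else 1) *
      (if l = l1 then ∏ q ∈ d l1, h l1 q else 1) * ∏ q ∈ base l0 l1 d l, h l q := by
    intro l
    rw [linw_base_apply]
    by_cases h1 : l = l1
    · subst h1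
      simp [hne.symm]
    · by_cases h2 : l = l0
      · subst h2
        simp [h1]
      · simp [h1, h2]
  rw [prod_congr rfl fun l _ => key l, prod_mul_distrib, prod_mul_distrib]
  simp

private theorem linw_PD_base (l0 l1 : L) {d : L → Finset ι} (hd : PD d) : PD (base l0 l1 d) := by
  intro l m hlm
  rw [linw_base_apply, linw_base_apply]
  split_ifs <;> simp [hd l m hlm]

private theorem linw_disj0 (l0 l1 : L) {d : L → Finset ι} (hd : PD d) :
    Disjoint (d l0) (uni (base l0 l1 d)) := by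
  unfold uni
  rw [disjoint_biUnion_right]
  intro l _
  rw [linw_base_apply]
  split_ifs with h1 h2
  · simp
  · simp
  · exact hd l0 l fun h => h2 h.symm

private theorem linw_disj1 (l0 l1 : L) {d : L → Finset ι} (hd : PD d) :
    Disjoint (d l1) (uni (base l0 l1 d)) := by
  unfold uni
  rw [disjoint_biUnion_right]
  intro l _
  rw [linw_base_apply]
  split_ifs with h1 h2
  · simp
  · simp
  · exact hd l1 l fun h => h1 h.symm

private theorem linw_ss_symm (D : Dat2 ι κ) (hR : D.Sym) {S T : Finset ι} (h : Disjoint S T) :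
    D.ss T S = D.ss S T := by
  unfold Dat2.ss
  rw [sum_comm]
  refine sum_congr rfl fun q hq => sum_congr rfl fun p hp => ?_
  exact hR p q fun e => disjoint_left.1 h hq (e ▸ hp)

private theorem linw_ee {l0 l1 : L} (hne : l0 ≠ l1) (D : Dat2 ι κ) (hR : D.Sym) (Λ : LS2 L ι κ)
    (hdiag : ∀ l, Λ.Phi l l = 0) {d : L → Finset ι} (hd : PD d) :
    D.ee Λ d = D.ee Λ (base l0 l1 d) +
      (∑ q ∈ d l0, D.lin Λ l0 q + ∑ k, (Λ.Phi l0 k * D.ss (d l0) (base l0 l1 d k) +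
        Λ.Phi k l0 * D.ss (base l0 l1 d k) (d l0))) +
      (∑ q ∈ d l1, D.lin Λ l1 q + ∑ k, (Λ.Phi l1 k * D.ss (d l1) (base l0 l1 d k) +
        Λ.Phi k l1 * D.ss (base l0 l1 d k) (d l1))) + Λ.lk l0 l1 * D.ss (d l0) (d l1) := by
  have e1 : ∑ l, ∑ q ∈ d l, D.lin Λ l q = ∑ q ∈ d l0, D.lin Λ l0 q +
      ∑ q ∈ d l1, D.lin Λ l1 q + ∑ l, ∑ q ∈ base l0 l1 d l, D.lin Λ l q :=
    linw_sum hne d (fun l S => ∑ q ∈ S, D.lin Λ l q) fun l => sum_empty
  have e6 : ∑ l, ∑ m, Λ.Phi l m * D.ss (d l) (d m) =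
      ∑ m, Λ.Phi l0 m * D.ss (d l0) (d m) + ∑ m, Λ.Phi l1 m * D.ss (d l1) (d m) +
        ∑ l, ∑ m, Λ.Phi l m * D.ss (base l0 l1 d l) (d m) :=
    linw_sum hne d (fun l S => ∑ m, Λ.Phi l m * D.ss S (d m)) fun l => by
      show ∑ m, Λ.Phi l m * D.ss ∅ (d m) = 0
      exact sum_eq_zero fun m _ => by rw [ss_empty_left, mul_zero]
  have e5 : ∀ (l : L) (R : Finset ι), ∑ m, Λ.Phi l m * D.ss R (d m) =
      Λ.Phi l l0 * D.ss R (d l0) + Λ.Phi l l1 * D.ss R (d l1) +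
        ∑ m, Λ.Phi l m * D.ss R (base l0 l1 d m) := fun l R =>
    linw_sum hne d (fun m S => Λ.Phi l m * D.ss R S) fun m => by
      show Λ.Phi l m * D.ss R ∅ = 0
      rw [ss_empty_right, mul_zero]
  have e4 : D.ss (d l1) (d l0) = D.ss (d l0) (d l1) := linw_ss_symm D hR (hd l0 l1 hne)
  unfold Dat2.ee LS2.lk
  rw [e1, e6, e5 l0 (d l0), e5 l1 (d l1), sum_congr rfl fun l _ => e5 l (base l0 l1 d l), e4, hdiag l0,
    hdiag l1]
  simp only [sum_add_distrib]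
  ring

open Classical in
private def linw_al (D : Dat2 ι κ) (Λ : LS2 L ι κ) (h : L → ι → ℂ) (V : ℕ) (Z : Finset L)
    (l0 l1 : L) (b : L → Finset ι) (S : Finset ι) : ℂ :=
  if PD b ∧ Disjoint S (uni b) ∧ (∀ l, l ≠ l0 → l ≠ l1 → (l ∈ Z ↔ V < nm (b l))) then
    (∏ l, ∏ q ∈ b l, h l q) * e2 (D.ee Λ b) * ((∏ q ∈ S, h l0 q) *
      e2 (∑ q ∈ S, D.lin Λ l0 q + ∑ k, (Λ.Phi l0 k * D.ss S (b k) + Λ.Phi k l0 * D.ss (b k) S)))
  else 0

open Classical in
private def linw_be (D : Dat2 ι κ) (Λ : LS2 L ι κ) (h : L → ι → ℂ) (l1 : L) (b : L → Finset ι)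
    (T : Finset ι) : ℂ :=
  if Disjoint T (uni b) then
    (∏ q ∈ T, h l1 q) * e2 (∑ q ∈ T, D.lin Λ l1 q +
      ∑ k, (Λ.Phi l1 k * D.ss T (b k) + Λ.Phi k l1 * D.ss (b k) T))
  else 0

private theorem linw_pr {h : L → ι → ℂ} (hh : ∀ l q, ‖h l q‖ ≤ 1) (l : L) (S : Finset ι) :
    ‖∏ q ∈ S, h l q‖ ≤ 1 := by
  rw [norm_prod]
  exact prod_le_one (fun q _ => norm_nonneg _) fun q _ => hh l q

private theorem linw_al_le (D : Dat2 ι κ) (Λ : LS2 L ι κ) {h : L → ι → ℂ}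
    (hh : ∀ l q, ‖h l q‖ ≤ 1) (V : ℕ) (Z : Finset L) (l0 l1 : L)
    (b : L → Finset ι) (S : Finset ι) : ‖linw_al D Λ h V Z l0 l1 b S‖ ≤ 1 := by
  unfold linw_al
  split_ifs with hc
  · have h1 : ‖∏ l, ∏ q ∈ b l, h l q‖ ≤ 1 := by
      rw [norm_prod]
      exact prod_le_one (fun l _ => norm_nonneg _) fun l _ => linw_pr hh l _
    rw [norm_mul, norm_mul, norm_mul, norm_e2, norm_e2, mul_one, mul_one]
    exact mul_le_one₀ h1 (norm_nonneg _) (linw_pr hh _ _)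
  · rw [norm_zero]
    exact zero_le_one

private theorem linw_be_le (D : Dat2 ι κ) (Λ : LS2 L ι κ) {h : L → ι → ℂ}
    (hh : ∀ l q, ‖h l q‖ ≤ 1) (l1 : L)
    (b : L → Finset ι) (T : Finset ι) : ‖linw_be D Λ h l1 b T‖ ≤ 1 := by
  unfold linw_be
  split_ifs with hc
  · rw [norm_mul, norm_e2, mul_one]
    exact linw_pr hh _ _
  · rw [norm_zero]
    exact zero_le_one

private theorem linw_al_supp (D : Dat2 ι κ) (Λ : LS2 L ι κ) (g : L → ι → ℂ) (V : ℕ) (Z : Finset L)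
    (l0 l1 : L) (b : L → Finset ι) (S : Finset ι) (h : linw_al D Λ g V Z l0 l1 b S ≠ 0) :
    PD b ∧ Disjoint S (uni b) := by
  unfold linw_al at h
  have c := by_contra fun h' => h (if_neg h')
  exact ⟨c.1, c.2.1⟩

private theorem linw_be_supp (D : Dat2 ι κ) (Λ : LS2 L ι κ) (g : L → ι → ℂ) (l1 : L)
    (b : L → Finset ι) (T : Finset ι) (h : linw_be D Λ g l1 b T ≠ 0) : Disjoint T (uni b) := by
  unfold linw_be at h
  exact by_contra fun h' => h (if_neg h')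

open Classical in
private theorem linw_main {l0 l1 : L} (hne : l0 ≠ l1) (D : Dat2 ι κ) (hR : D.Sym) (Λ : LS2 L ι κ)
    (hdiag : ∀ l, Λ.Phi l l = 0) (g : L → ι → ℂ) (V : ℕ) (Z : Finset L) {d : L → Finset ι}
    (hd : PD d) :
    linw_al D Λ g V Z l0 l1 (base l0 l1 d) (d l0) * linw_be D Λ g l1 (base l0 l1 d) (d l1) *
        e2 (Λ.lk l0 l1 * D.ss (d l0) (d l1)) =
      if ∀ l, l ≠ l0 → l ≠ l1 → (l ∈ Z ↔ V < nm (d l)) then FG D Λ g d else 0 := by
  have hb : (∀ l, l ≠ l0 → l ≠ l1 → (l ∈ Z ↔ V < nm (base l0 l1 d l))) ↔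
      ∀ l, l ≠ l0 → l ≠ l1 → (l ∈ Z ↔ V < nm (d l)) := by
    refine forall_congr' fun l => forall_congr' fun h0 => forall_congr' fun h1 => ?_
    rw [linw_base_apply, if_neg h1, if_neg h0]
  by_cases h2 : ∀ l, l ≠ l0 → l ≠ l1 → (l ∈ Z ↔ V < nm (d l))
  · rw [if_pos h2]
    unfold linw_al linw_be
    rw [if_pos ⟨linw_PD_base l0 l1 hd, linw_disj0 l0 l1 hd, hb.2 h2⟩,
      if_pos (linw_disj1 l0 l1 hd)]
    unfold FG
    rw [linw_ee hne D hR Λ hdiag hd, linw_prod hne d g]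
    simp only [e2_add]
    ring
  · rw [if_neg h2]
    have : linw_al D Λ g V Z l0 l1 (base l0 l1 d) (d l0) = 0 := by
      unfold linw_al
      exact if_neg fun h => h2 (hb.1 h.2.2)
    rw [this, zero_mul, zero_mul]

theorem linkedW (D : Dat2 ι κ) (hD : D.OK) (Λ : LS2 L ι κ) (hΛ : Λ.OK) :
    ∃ (C : ℝ) (K : ℕ) (c : ℝ), 0 < C ∧ 0 < c ∧ ∀ g : L → ι → ℂ, (∀ l q, ‖g l q‖ ≤ 1) →
      ∀ (X V : ℕ) (Z : Finset L) (l0 l1 : L), 2 ≤ X → 1 ≤ V →
      l0 ∈ Z → l1 ∈ Z → Λ.lk l0 l1 ≠ 0 →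
      ‖∑ d ∈ BoxZ ι X V Z, FG D Λ g d‖ ≤ C * X * (1 + Real.log X) ^ K * (V : ℝ) ^ (-c) := by
  obtain ⟨C0, K0, c0, hc0, hBL⟩ := hD.bl
  obtain ⟨C2, hZ⟩ := hD.zt
  obtain ⟨H, hH1, hH⟩ := harm hZ
  obtain ⟨C, hC, hpl⟩ := plc (L := L) D hBL.cx hH1 hH
  refine ⟨C, K0 + Fintype.card L, c0, hC, hc0, ?_⟩
  intro g hg X V Z l0 l1 hX hV h0 h1 hlk
  have hne : l0 ≠ l1 := by
    intro h
    apply hlk
    rw [h]
    unfold LS2.lk
    rw [hΛ.diag, add_zero]
  classical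
  have key : ∑ d ∈ BoxZ ι X V Z, FG D Λ g d =
      ∑ d ∈ (Box ι L X).filter (fun d => V < nm (d l0) ∧ V < nm (d l1)),
        linw_al D Λ g V Z l0 l1 (base l0 l1 d) (d l0) * linw_be D Λ g l1 (base l0 l1 d) (d l1) *
          e2 (Λ.lk l0 l1 * D.ss (d l0) (d l1)) := by
    have e1 : ∑ d ∈ (Box ι L X).filter (fun d => V < nm (d l0) ∧ V < nm (d l1)),
        linw_al D Λ g V Z l0 l1 (base l0 l1 d) (d l0) * linw_be D Λ g l1 (base l0 l1 d) (d l1) *
          e2 (Λ.lk l0 l1 * D.ss (d l0) (d l1)) =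
        ∑ d ∈ (Box ι L X).filter (fun d => V < nm (d l0) ∧ V < nm (d l1)),
          if ∀ l, l ≠ l0 → l ≠ l1 → (l ∈ Z ↔ V < nm (d l)) then FG D Λ g d else 0 := by
      refine sum_congr rfl fun d hd => ?_
      exact linw_main hne D hD.sym Λ hΛ.diag g V Z (mem_Box.1 (mem_filter.1 hd).1).1
    rw [e1, ← sum_filter, filter_filter]
    refine sum_congr ?_ fun _ _ => rfl
    ext d
    rw [mem_BoxZ, mem_filter, mem_Box, and_assoc]
    refine and_congr_right fun _ => and_congr_right fun _ => ⟨fun h => ⟨⟨(h l0).1 h0, (h l1).1 h1⟩,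
      fun l _ _ => h l⟩, fun h l => ?_⟩
    by_cases e0 : l = l0
    · subst e0
      exact ⟨fun _ => h.1.1, fun _ => h0⟩
    · by_cases e1 : l = l1
      · subst e1
        exact ⟨fun _ => h.1.2, fun _ => h1⟩
      · exact h.2 l e0 e1
  rw [key]
  refine (le_of_eq ?_).trans (hpl (Λ.lk l0 l1) l0 l1 (fun d => linw_al D Λ g V Z l0 l1 (base l0 l1 d) (d l0) *
      linw_be D Λ g l1 (base l0 l1 d) (d l1) * e2 (Λ.lk l0 l1 * D.ss (d l0) (d l1)))
      (linw_al D Λ g V Z l0 l1) (linw_be D Λ g l1) V X hlk hne hV hX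
      (fun b S => linw_al_le D Λ hg V Z l0 l1 b S)
      (fun b S => linw_be_le D Λ hg l1 b S)
      (fun b S h => linw_al_supp D Λ g V Z l0 l1 b S h)
      (fun b S h => linw_be_supp D Λ g l1 b S h) (fun d _ => rfl))
  refine congrArg norm (sum_congr ?_ fun _ _ => rfl)
  ext d
  simp only [mem_filter]

end

end Pool.Agent.Lib.MP_1a91b9_ntQ.DW
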