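import Pool.Agent.Lib.MP_1a91b9_ntQ.DW.XW

/-!
# Weighted engine with several activity characters: the inner sums of the full sets
-/

set_option autoImplicit false
set_option linter.unusedSectionVars false

namespace Pool.Agent.Lib.MP_1a91b9_ntQ.DW

open Finset Pool.Agent.Lib.MP_1a91b9_ntH
open Pool.Agent.Lib.MP_1a91b9_ntQ Pool.Agent.Lib.MP_1a91b9_ntQ.D

noncomputable section

variable {ι : Type} [DecidableEq ι] [PS ι] {L : Type} [Fintype L] [DecidableEq L]
  {κ : Type} [Fintype κ] [DecidableEq κ]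

/-- If the small family is not empty, then two labels give a nontrivial character. -/
theorem pairX (Λ : LS2 L ι κ) (hΛ : Λ.OK) (hB : Λ.B = ∅) (U : Finset L)
    (hU : U ∈ Λ.Us) (b : L → Finset ι) (hb : PD b)
    (hbU : ∀ l ∈ U, b l = ∅) (hne : uni b ≠ ∅) :
    ∃ l ∈ U, ∃ l' ∈ U, l ≠ l' ∧ TT Λ b l l' ≠ ∅ := by
  classical
  obtain ⟨hU1, hU2⟩ := (Λ.mem_Us U).1 hU
  obtain ⟨p0, hp0⟩ := nonempty_iff_ne_empty.2 hne
  obtain ⟨m0, hm0⟩ := mem_uni.1 hp0
  have hm0U : m0 ∉ U := fun hm => by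
    rw [hbU m0 hm] at hm0
    exact absurd hm0 (notMem_empty _)
  obtain ⟨l, hl, l', hl', hll⟩ := hΛ.k2 U hU1 hU2 m0 hm0U
  have hne' : l ≠ l' := fun e => hll (by rw [e])
  have h1 : tt Λ b l l' p0 = Λ.lk l m0 - Λ.lk l' m0 := by
    unfold tt
    rw [if_neg (by rw [hB]; exact notMem_empty _), zero_add, sum_eq_single m0, if_pos hm0]
    · intro m _ hm
      exact if_neg fun h => (disjoint_left.1 (hb m m0 hm)) h hm0
    · intro h
      exact absurd (mem_univ _) h
  refine ⟨l, hl, l', hl', hne', nonempty_iff_ne_empty.1 ⟨p0, ?_⟩⟩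
  unfold TT
  refine mem_filter.2 ⟨mem_union_right _ hp0, ?_⟩
  rw [h1]
  exact sub_ne_zero.2 hll

private theorem xin_logT (Λ : LS2 L ι κ) (hB : Λ.B = ∅) {U : Finset L} {V : ℕ} (hV : 1 ≤ V)
    {b : L → Finset ι} (hb : b ∈ SmB ι V U) {C3 : ℝ} (T : Finset ι)
    (hT : T ⊆ Λ.B ∪ uni b) :
    C3 * (1 + Real.log (nm T)) ≤
      ((|C3| + 1) * (1 + Fintype.card L)) * (1 + Real.log V) := by
  have hbPD := (mem_SmB.1 hb).2.1
  have hVr : (1 : ℝ) ≤ V := by exact_mod_cast hV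
  have hlogV : 0 ≤ Real.log V := Real.log_nonneg hVr
  have hTn : (1 : ℝ) ≤ nm T := by exact_mod_cast one_le_nm T
  rw [hB, empty_union] at hT
  have h6 : Real.log (nm T) ≤ Fintype.card L * Real.log V := by
    have h7 : nm T ≤ V ^ Fintype.card L := by
      refine (nm_mono hT).trans ?_
      rw [nm_uni hbPD]
      exact nmf_le_pow (U := U) hb
    have h8 : (nm T : ℝ) ≤ (V : ℝ) ^ Fintype.card L := by exact_mod_cast h7
    have h9 := Real.log_le_log (by linarith) h8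
    rwa [Real.log_pow] at h9
  have h10 : 0 ≤ Real.log (nm T) := Real.log_nonneg hTn
  have hcL : (0 : ℝ) ≤ Fintype.card L := Nat.cast_nonneg _
  calc C3 * (1 + Real.log (nm T)) ≤ (|C3| + 1) * (1 + Real.log (nm T)) := by
        refine mul_le_mul_of_nonneg_right ?_ (by linarith)
        have := le_abs_self C3
        linarith
    _ ≤ (|C3| + 1) * (1 + Fintype.card L * Real.log V) := by
        refine mul_le_mul_of_nonneg_left (by linarith) (by positivity)
    _ ≤ (|C3| + 1) * ((1 + Fintype.card L) * (1 + Real.log V)) := by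
        refine mul_le_mul_of_nonneg_left ?_ (by positivity)
        nlinarith
    _ = _ := by ring

open Classical in
theorem inbX (D : Dat2 ι κ) (hD : D.OK)
    (hN : ∀ c : κ → ZMod 2, c ≠ 0 → ∃ C, CharB (fun q => -(D.ch ∅ c q)) C)
    (Λ : LS2 L ι κ) (hΛ : Λ.OK) (hB : Λ.B = ∅)
    {w : L → (κ → ZMod 2) → ℝ} (hw0 : ∀ l φ, 0 ≤ w l φ) (hw1 : ∀ l φ, w l φ ≤ 1)
    (hwz : ∀ l, w l 0 = (Λ.m : ℝ)⁻¹) (h : L → ι → ZMod 2) {g : ι → ℂ} (hg : ∀ q, ‖g q‖ = 1) :
    ∃ C : ℝ, 0 < C ∧ ∀ U ∈ Λ.Us, (∀ φ, ∑ l ∈ U, w l φ ≤ 1) → (∀ l ∈ U, ∀ q, h l q = 0) →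
      ∀ V : ℕ, 1 ≤ V → ∀ b ∈ SmB ι V U, uni b ≠ ∅ → ∀ Y : ℕ, 2 ≤ Y →
      ‖∑ S ∈ (Sx ι Y).filter (fun S => Disjoint S (uni b)), ∑ d ∈ FamU U S,
        FG D Λ (hX D w h g) (fun l => b l ∪ d l)‖ ≤
        C * Y * Real.log Y ^ (-(1 / ((2 * Λ.m * 2 ^ Fintype.card κ : ℕ) : ℝ))) *
          (1 + Real.log V) ^ (2 ^ Fintype.card κ) := by
  obtain ⟨C1, hC1⟩ := hD.cheb
  obtain ⟨C2, hC2⟩ := hD.zt
  obtain ⟨C3, hC3⟩ := hD.cbt
  obtain ⟨BN, hBN⟩ := chN_CB hD hN 0
  have hmp := hΛ.two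
  have hM1 : 1 ≤ 2 * Λ.m * 2 ^ Fintype.card κ := by
    have h2 : 1 ≤ 2 ^ Fintype.card κ := Nat.one_le_two_pow
    nlinarith
  obtain ⟨K, hK, hub⟩ := ubf (τ := NZ κ ⊕ (κ → ZMod 2)) hC1 hC2
    (2 * Λ.m * 2 ^ Fintype.card κ) hM1
  set M : ℕ := 2 * Λ.m * 2 ^ Fintype.card κ with hM
  have hMr : (1 : ℝ) ≤ M := by exact_mod_cast hM1
  have hM0 : (0 : ℝ) < M := by linarith
  set G : ℝ := (|C3| + 1) * (1 + Fintype.card L) with hG
  have hG0 : 0 < G := by positivity
  have hBN1 : 1 ≤ ∏ c, BN c := by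
    rw [← Finset.prod_const_one (s := (univ : Finset (NZ κ)))]
    exact prod_le_prod (fun i _ => zero_le_one) fun i _ => (hBN i).hB
  set n : ℕ := 2 ^ Fintype.card κ with hn
  refine ⟨K * ((∏ c, BN c) * G ^ n) + 1, by positivity, ?_⟩
  intro U hU hU1 hh V hV b hb hne Y hY
  have hUU := (Λ.mem_Us U).1 hU
  have hYr : (2 : ℝ) ≤ Y := by exact_mod_cast hY
  have hlogY : 0 < Real.log Y := Real.log_pos (by linarith)
  have hVr : (1 : ℝ) ≤ V := by exact_mod_cast hV
  have hlogV : 0 ≤ Real.log V := Real.log_nonneg hVr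
  have hE : 0 ≤ (Y : ℝ) * Real.log Y ^ (-(1 / (M : ℝ))) * (1 + Real.log V) ^ n := by positivity
  have hb3 := mem_SmB.1 hb
  have e1 : ∑ S ∈ (Sx ι Y).filter (fun S => Disjoint S (uni b)), ∑ d ∈ FamU U S,
      FG D Λ (hX D w h g) (fun l => b l ∪ d l) =
      (∏ l, ∏ q ∈ b l, hX D w h g l q) * e2 (D.ee Λ b) *
        ∑ S ∈ (Sx ι Y).filter (fun S => Disjoint S (uni b)),
          ∏ q ∈ S, HG D Λ (hX D w h g) U b q := by
    rw [Finset.sum_congr rfl fun S hS => innerW D hD.sym Λ hΛ (hX D w h g) U hUU.1 b S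
      (Finset.mem_filter.1 hS).2, ← Finset.mul_sum]
  have key : ‖∑ S ∈ (Sx ι Y).filter (fun S => Disjoint S (uni b)),
      ∏ q ∈ S, HG D Λ (hX D w h g) U b q‖ ≤ K * Y * Real.log Y ^ (-(1 / (M : ℝ))) *
        ((∏ c, BN c) * G ^ n * (1 + Real.log V) ^ n) := by
    obtain ⟨l, hl, l', hl', hll, hT⟩ := pairX Λ hΛ hB U hU b hb3.2.1 hb3.2.2 hne
    obtain ⟨BB, hBB⟩ : ∃ BB : NZ κ ⊕ (κ → ZMod 2) → ℝ, BB = Sum.elim BN
      (fun _ => C3 * (1 + Real.log (nm (TT Λ b l l')))) := ⟨_, rfl⟩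
    have hch : ∀ i, CharB (chB D Λ b l l' i) (BB i) := by
      rintro (c | c)
      · rw [hBB]
        exact hBN c
      · rw [hBB]
        exact hC3 (TT Λ b l l') (tt Λ b l l') (c + (Λ.c l - Λ.c l')) (tt_ne Λ b l l') (Or.inl hT)
    set v : ι → ℝ := fun q => if q ∈ uni b then 0 else ‖HG D Λ (hX D w h g) U b q‖ with hv
    have hv0 : ∀ q, 0 ≤ v q ∧ v q ≤ 1 ∧ v q ≤ ((M - 1 : ℝ) + ∑ i, chB D Λ b l l' i q) / M := by
      intro q
      simp only [hv]
      split_ifs with hq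
      · refine ⟨le_rfl, zero_le_one, div_nonneg ?_ hM0.le⟩
        by_cases hqT : q ∈ TT Λ b l l'
        · have h1 : ∑ i, chB D Λ b l l' i q = ∑ c, chN D 0 c q := by
            rw [Fintype.sum_sum_type]
            have h2 : ∀ c : κ → ZMod 2, chB D Λ b l l' (Sum.inr c) q = 0 := fun c => by
              show D.cht (TT Λ b l l') (tt Λ b l l') (c + (Λ.c l - Λ.c l')) q = 0
              unfold Dat2.cht
              rw [if_pos hqT]
            rw [sum_congr rfl fun c _ => h2 c, sum_const_zero, add_zero]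
            rfl
          rw [h1, chN_sum]
          have h3 : (n : ℝ) ≤ M := by
            have h4 : n ≤ M := by
              rw [hM]
              nlinarith [Nat.zero_le n]
            exact_mod_cast h4
          have h5 : ((2 : ℝ) ^ Fintype.card κ) = n := by
            rw [hn]
            push_cast
            rfl
          rw [h5]
          split_ifs <;> linarith
        · rw [chB_sum D Λ b l l' q hqT]
          have h5 : ((2 : ℝ) ^ Fintype.card κ) = n := by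
            rw [hn]
            push_cast
            rfl
          rw [h5]
          have h3 : 2 * (n : ℝ) ≤ M := by
            have h4 : 2 * n ≤ M := by
              rw [hM]
              nlinarith [Nat.zero_le n]
            exact_mod_cast h4
          have h6 := (abs_le.1 (sg2_abs (D.ex (TT Λ b l l') (tt Λ b l l')
            (Λ.c l - Λ.c l') q)).le).1
          have h7 : (0 : ℝ) ≤ n := Nat.cast_nonneg n
          split_ifs
          · nlinarith
          · linarith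
      · exact ⟨norm_nonneg _, (HX_le D Λ hw0 h hg U b q).trans (hU1 _),
          HX_bd D hD.sym Λ hΛ hB hw0 hwz h hg U hUU.2 hU1 hh b l l' hl hl' hll q hq⟩
    have h2 := hub _ _ hch v hv0 Y hY
    have h3 : ‖∑ S ∈ (Sx ι Y).filter (fun S => Disjoint S (uni b)),
        ∏ q ∈ S, HG D Λ (hX D w h g) U b q‖ ≤ ∑ S ∈ Sx ι Y, ∏ q ∈ S, v q := by
      refine (norm_sum_le _ _).trans ?_
      have h4 : ∀ S ∈ (Sx ι Y).filter (fun S => Disjoint S (uni b)),
          ‖∏ q ∈ S, HG D Λ (hX D w h g) U b q‖ = ∏ q ∈ S, v q := by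
        intro S hS
        rw [norm_prod]
        refine Finset.prod_congr rfl fun q hq => ?_
        simp only [hv]
        rw [if_neg (Finset.disjoint_left.1 (Finset.mem_filter.1 hS).2 hq)]
      rw [Finset.sum_congr rfl h4]
      refine Finset.sum_le_sum_of_subset_of_nonneg (Finset.filter_subset _ _) fun S _ _ => ?_
      exact Finset.prod_nonneg fun q _ => (hv0 q).1
    refine h3.trans (h2.trans ?_)
    refine mul_le_mul_of_nonneg_left ?_ (by positivity)
    have h5 : ∀ x : ℝ, 1 ≤ x → x ^ (1 / (M : ℝ)) ≤ x := by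
      intro x hx
      calc x ^ (1 / (M : ℝ)) ≤ x ^ (1 : ℝ) :=
            Real.rpow_le_rpow_of_exponent_le hx (by
              rw [div_le_one hM0]
              linarith)
        _ = x := Real.rpow_one x
    have hB1 : 1 ≤ ∏ i, BB i := by
      rw [← Finset.prod_const_one (s := (univ : Finset (NZ κ ⊕ (κ → ZMod 2))))]
      exact prod_le_prod (fun i _ => zero_le_one) fun i _ => (hch i).hB
    refine (h5 _ hB1).trans ?_
    have b1 : 1 ≤ C3 * (1 + Real.log (nm (TT Λ b l l'))) := by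
      have h6 := (hch (Sum.inr 0)).hB
      rw [hBB] at h6
      exact h6
    have c1 := xin_logT Λ hB hV hb (C3 := C3) (TT Λ b l l') (TT_sub Λ b l l')
    have hcard : Fintype.card (κ → ZMod 2) = n := by
      rw [Fintype.card_fun, ZMod.card, hn]
    rw [hBB, Fintype.prod_sum_type]
    simp only [Sum.elim_inl, Sum.elim_inr, prod_const, card_univ]
    rw [hcard, mul_assoc, ← mul_pow]
    refine mul_le_mul_of_nonneg_left ?_ (by linarith)
    exact pow_le_pow_left₀ (by linarith) c1 n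
  have hpre : ‖(∏ l, ∏ q ∈ b l, hX D w h g l q) * e2 (D.ee Λ b)‖ ≤ 1 := by
    rw [norm_mul, norm_e2, mul_one, norm_prod]
    refine prod_le_one (fun l _ => norm_nonneg _) fun l _ => ?_
    rw [norm_prod]
    refine prod_le_one (fun q _ => norm_nonneg _) fun q _ => ?_
    rw [hX_norm D hw0 h hg]
    exact hw1 l _
  rw [e1, norm_mul]
  calc _ ≤ 1 * _ := mul_le_mul_of_nonneg_right hpre (norm_nonneg _)
    _ = _ := one_mul _
    _ ≤ _ := key
    _ = (K * ((∏ c, BN c) * G ^ n)) *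
        (Y * Real.log Y ^ (-(1 / (M : ℝ))) * (1 + Real.log V) ^ n) := by ring
    _ ≤ (K * ((∏ c, BN c) * G ^ n) + 1) *
        (Y * Real.log Y ^ (-(1 / (M : ℝ))) * (1 + Real.log V) ^ n) := by
        refine mul_le_mul_of_nonneg_right (by linarith) hE
    _ = _ := by ring

end

end Pool.Agent.Lib.MP_1a91b9_ntQ.DW
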