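import Pool.Agent.Lib.MP_1a91b9_ntH.D.ChooseV
import Pool.Agent.Lib.MP_1a91b9_ntQ.DW.LinkedW
import Pool.Agent.Lib.MP_1a91b9_ntQ.DW.XIn

/-!
# Weighted engine with several activity characters

The weight `w l φ` of a prime `q` with label `l` depends on the vector `φ = D.a q`; it is `1 / m` for
`φ = 0`, and the sum over an unlinked set is at most `1`. The main terms come from the maximal
unlinked sets for which the sum of the weights is `1` for every `φ`.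
-/

set_option autoImplicit false
set_option linter.unusedSectionVars false

namespace Pool.Agent.Lib.MP_1a91b9_ntQ.DW

open Finset Pool.Agent.Lib.MP_1a91b9_ntH
open Pool.Agent.Lib.MP_1a91b9_ntQ Pool.Agent.Lib.MP_1a91b9_ntQ.D

noncomputable section

variable {ι : Type} [DecidableEq ι] [PS ι] {L : Type} [Fintype L] [DecidableEq L]
  {κ : Type} [Fintype κ] [DecidableEq κ]

/-- A sum over the box of the families which are small outside `U`, with a saving in the small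
families different from the empty one. -/
private theorem boxX {G : (L → Finset ι) → ℂ} {D : Dat2 ι κ} (hD : D.OK) (U : Finset L) (M n : ℕ)
    (hM : 1 ≤ M) (C1 : ℝ) (hC1 : 0 < C1)
    (hin : ∀ V : ℕ, 1 ≤ V → ∀ b ∈ SmB ι V U, uni b ≠ ∅ → ∀ Y : ℕ, 2 ≤ Y →
      ‖∑ S ∈ (Sx ι Y).filter (fun S => Disjoint S (uni b)), ∑ d ∈ FamU U S,
        G (fun l => b l ∪ d l)‖ ≤
        C1 * Y * Real.log Y ^ (-(1 / (M : ℝ))) * (1 + Real.log V) ^ n) :
    ∃ C : ℝ, 0 < C ∧ ∀ X V : ℕ, 16 ≤ X → 1 ≤ V → V ^ (2 * Fintype.card L) ≤ X →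
      ‖∑ d ∈ BoxS ι X V U, G d - ∑ S ∈ Sx ι X, ∑ d ∈ FamU U S, G d‖ ≤
        C * X * Real.log X ^ (-(1 / (M : ℝ))) * (1 + Real.log V) ^ (Fintype.card L + n) := by
  classical
  obtain ⟨C2, hzt⟩ := hD.zt
  obtain ⟨K, hK1, hharm⟩ := harm hzt
  have hK0 : (0 : ℝ) < K := by linarith
  refine ⟨4 * C1 * K ^ Fintype.card L, by positivity, ?_⟩
  intro X V hX16 hV hVX
  have hm1 : (1 : ℝ) ≤ M := by exact_mod_cast hM
  have hδ0 : (0 : ℝ) < 1 / (M : ℝ) := by positivity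
  have hδ1 : 1 / (M : ℝ) ≤ 1 := by
    rw [div_le_one (by linarith)]
    linarith
  have hlV : 0 ≤ Real.log V := Real.log_nonneg (by exact_mod_cast hV)
  have hlX : 0 ≤ Real.log X ^ (-(1 / (M : ℝ))) :=
    Real.rpow_nonneg (Real.log_nonneg (by exact_mod_cast (by omega : 1 ≤ X))) _
  have hb0 : (fun _ : L => (∅ : Finset ι)) ∈ SmB ι V U := by
    rw [mem_SmB]
    refine ⟨fun l => ?_, fun l m _ => ?_, fun l _ => rfl⟩
    · rw [nm_empty]
      exact hV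
    · exact disjoint_empty_left _
  have hn0 : nmf (fun _ : L => (∅ : Finset ι)) = 1 := by
    unfold nmf
    simp [nm_empty]
  rw [sum_splitC X V hV U G, ← add_sum_erase _ _ hb0]
  have hT0 : ∑ S ∈ (Sx ι (X / nmf (fun _ : L => (∅ : Finset ι)))).filter
      (fun S => Disjoint S (uni (fun _ : L => (∅ : Finset ι)))),
      ∑ d ∈ FamU U S, G (fun l => (fun _ : L => (∅ : Finset ι)) l ∪ d l) =
      ∑ S ∈ Sx ι X, ∑ d ∈ FamU U S, G d := by
    rw [hn0, Nat.div_one, uni_empty, filter_true_of_mem fun S _ => disjoint_empty_right S]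
    refine sum_congr rfl fun S _ => sum_congr rfl fun d _ => ?_
    have : (fun l => (fun _ : L => (∅ : Finset ι)) l ∪ d l) = d := by
      funext l
      exact empty_union _
    rw [this]
  rw [hT0, add_sub_cancel_left]
  have hterm : ∀ b ∈ (SmB ι V U).erase (fun _ : L => (∅ : Finset ι)),
      ‖∑ S ∈ (Sx ι (X / nmf b)).filter (fun S => Disjoint S (uni b)),
        ∑ d ∈ FamU U S, G (fun l => b l ∪ d l)‖ ≤
      4 * C1 * X * Real.log X ^ (-(1 / (M : ℝ))) * (1 + Real.log V) ^ n * (1 / nmf b) := by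
    intro b hb
    obtain ⟨hne, hb'⟩ := mem_erase.1 hb
    have hub : uni b ≠ ∅ := by
      intro h
      apply hne
      funext l
      exact subset_empty.1 (h ▸ sub_uni b l)
    have hP1 := one_le_nmf b
    have hP2 : nmf b ^ 2 ≤ X := by
      refine le_trans ?_ hVX
      calc nmf b ^ 2 ≤ (V ^ Fintype.card L) ^ 2 := Nat.pow_le_pow_left (nmf_le_pow hb') 2
        _ = V ^ (2 * Fintype.card L) := by rw [← pow_mul, mul_comm]
    obtain ⟨hY2, hYle, hYlog⟩ := div_log X (nmf b) (1 / (M : ℝ)) hX16 hP1 hP2 hδ0 hδ1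
    refine (hin V hV b hb' hub _ hY2).trans ?_
    have hlY : 0 ≤ Real.log ((X / nmf b : ℕ) : ℝ) ^ (-(1 / (M : ℝ))) :=
      Real.rpow_nonneg (Real.log_nonneg (by exact_mod_cast (by omega : 1 ≤ X / nmf b))) _
    have hP0 : (0 : ℝ) ≤ 1 / nmf b := by positivity
    calc C1 * ((X / nmf b : ℕ) : ℝ) * Real.log ((X / nmf b : ℕ) : ℝ) ^ (-(1 / (M : ℝ))) *
          (1 + Real.log V) ^ n
        = C1 * (1 + Real.log V) ^ n * (((X / nmf b : ℕ) : ℝ) *
          Real.log ((X / nmf b : ℕ) : ℝ) ^ (-(1 / (M : ℝ)))) := by ring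
      _ ≤ C1 * (1 + Real.log V) ^ n * ((X * (1 / nmf b)) *
          (4 * Real.log X ^ (-(1 / (M : ℝ))))) := by
          apply mul_le_mul_of_nonneg_left _ (by positivity)
          exact mul_le_mul hYle hYlog hlY (by positivity)
      _ = 4 * C1 * X * Real.log X ^ (-(1 / (M : ℝ))) * (1 + Real.log V) ^ n * (1 / nmf b) := by
          ring
  calc ‖∑ b ∈ (SmB ι V U).erase (fun _ : L => (∅ : Finset ι)),
        ∑ S ∈ (Sx ι (X / nmf b)).filter (fun S => Disjoint S (uni b)),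
          ∑ d ∈ FamU U S, G (fun l => b l ∪ d l)‖
      ≤ ∑ b ∈ (SmB ι V U).erase (fun _ : L => (∅ : Finset ι)),
        ‖∑ S ∈ (Sx ι (X / nmf b)).filter (fun S => Disjoint S (uni b)),
          ∑ d ∈ FamU U S, G (fun l => b l ∪ d l)‖ := norm_sum_le _ _
    _ ≤ ∑ b ∈ (SmB ι V U).erase (fun _ : L => (∅ : Finset ι)),
        4 * C1 * X * Real.log X ^ (-(1 / (M : ℝ))) * (1 + Real.log V) ^ n * (1 / nmf b) :=
        sum_le_sum hterm
    _ ≤ ∑ b ∈ SmB ι V U,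
        4 * C1 * X * Real.log X ^ (-(1 / (M : ℝ))) * (1 + Real.log V) ^ n * (1 / nmf b) :=
        sum_le_sum_of_subset_of_nonneg (erase_subset _ _) fun b _ _ => by positivity
    _ = 4 * C1 * X * Real.log X ^ (-(1 / (M : ℝ))) * (1 + Real.log V) ^ n *
        ∑ b ∈ SmB ι V U, (1 : ℝ) / nmf b := by rw [mul_sum]
    _ ≤ 4 * C1 * X * Real.log X ^ (-(1 / (M : ℝ))) * (1 + Real.log V) ^ n *
        (K ^ Fintype.card L * (1 + Real.log V) ^ Fintype.card L) :=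
        mul_le_mul_of_nonneg_left (harm_fam hK1 hharm V hV U) (by positivity)
    _ = 4 * C1 * K ^ Fintype.card L * X * Real.log X ^ (-(1 / (M : ℝ))) *
        (1 + Real.log V) ^ (Fintype.card L + n) := by
        rw [pow_add]
        ring

private theorem engx_part (X V : ℕ) (G : (L → Finset ι) → ℂ) :
    ∑ d ∈ Box ι L X, G d = ∑ Z : Finset L, ∑ d ∈ BoxZ ι X V Z, G d := by
  classical
  rw [← Finset.sum_fiberwise (Box ι L X) (fun d => univ.filter fun l => V < nm (d l)) G]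
  refine Finset.sum_congr rfl fun Z _ => Finset.sum_congr ?_ fun _ _ => rfl
  ext d
  rw [mem_filter, mem_Box, mem_BoxZ, and_assoc]
  refine and_congr_right fun _ => and_congr_right fun _ => ?_
  constructor
  · rintro rfl l
    simp
  · intro h
    ext l
    rw [mem_filter]
    exact ⟨fun hl => (h l).2 hl.2, fun hl => ⟨mem_univ _, (h l).1 hl⟩⟩

private theorem engx_small (G : (L → Finset ι) → ℂ) (X V : ℕ) (Z : Finset L) :
    ∑ d ∈ BoxZ ι X V Z, ‖G d‖ ≤ ∑ d ∈ BoxS ι X V Z, ‖G d‖ := by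
  refine Finset.sum_le_sum_of_subset_of_nonneg ?_ fun _ _ _ => norm_nonneg _
  intro d hd
  rw [mem_BoxZ] at hd
  rw [mem_BoxS]
  refine ⟨hd.1, hd.2.1, fun l hl => ?_⟩
  by_contra h
  push Not at h
  exact hl ((hd.2.2 l).2 h)

private theorem engx_biUnion {α β : Type} [DecidableEq α] [DecidableEq β] (U : Finset α)
    (T : α → Finset β) (f : β → ℝ) (hf : ∀ x, 0 ≤ f x) :
    ∑ x ∈ U.biUnion T, f x ≤ ∑ l ∈ U, ∑ x ∈ T l, f x := by
  induction U using Finset.induction_on with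
  | empty => simp
  | insert a U ha ih =>
    rw [Finset.biUnion_insert, Finset.sum_insert ha]
    have h := Finset.sum_union_inter (s₁ := T a) (s₂ := U.biUnion T) (f := f)
    have h0 : 0 ≤ ∑ x ∈ T a ∩ U.biUnion T, f x := Finset.sum_nonneg fun x _ => hf x
    linarith

private theorem engx_exact (G : (L → Finset ι) → ℂ) (X V : ℕ) (U : Finset L) :
    ‖∑ d ∈ BoxZ ι X V U, G d - ∑ d ∈ BoxS ι X V U, G d‖ ≤
      ∑ l ∈ U, ∑ d ∈ BoxS ι X V (U.erase l), ‖G d‖ := by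
  classical
  have hsub : BoxZ ι X V U ⊆ BoxS ι X V U := by
    intro d hd
    rw [mem_BoxZ] at hd
    rw [mem_BoxS]
    refine ⟨hd.1, hd.2.1, fun l hl => ?_⟩
    by_contra h
    push Not at h
    exact hl ((hd.2.2 l).2 h)
  have h1 : ∑ d ∈ BoxS ι X V U, G d = ∑ d ∈ BoxS ι X V U \ BoxZ ι X V U, G d +
      ∑ d ∈ BoxZ ι X V U, G d := (Finset.sum_sdiff hsub).symm
  rw [h1]
  have h2 : ∑ d ∈ BoxZ ι X V U, G d - (∑ d ∈ BoxS ι X V U \ BoxZ ι X V U, G d +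
      ∑ d ∈ BoxZ ι X V U, G d) = - ∑ d ∈ BoxS ι X V U \ BoxZ ι X V U, G d := by ring
  rw [h2, norm_neg]
  refine (norm_sum_le _ _).trans ?_
  have hsub2 : BoxS ι X V U \ BoxZ ι X V U ⊆ U.biUnion fun l => BoxS ι X V (U.erase l) := by
    intro d hd
    rw [mem_sdiff, mem_BoxS, mem_BoxZ] at hd
    obtain ⟨⟨hd1, hd2, hd3⟩, hd4⟩ := hd
    have : ∃ l ∈ U, nm (d l) ≤ V := by
      by_contra hcon
      push Not at hcon
      refine hd4 ⟨hd1, hd2, fun l => ⟨fun hl => hcon l hl, fun hl => ?_⟩⟩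
      by_contra hl2
      have := hd3 l hl2
      omega
    obtain ⟨l, hl, hl2⟩ := this
    rw [mem_biUnion]
    refine ⟨l, hl, ?_⟩
    rw [mem_BoxS]
    refine ⟨hd1, hd2, fun l' hl' => ?_⟩
    by_cases h : l' = l
    · rw [h]; exact hl2
    · refine hd3 l' fun h' => hl' (mem_erase.2 ⟨h, h'⟩)
  refine (Finset.sum_le_sum_of_subset_of_nonneg hsub2 fun _ _ _ => norm_nonneg _).trans ?_
  exact engx_biUnion U (fun l => BoxS ι X V (U.erase l)) _ fun _ => norm_nonneg _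

/-- The bound `C X (log X) ^ (-δ) (1 + log V) ^ n`. -/
def Qb (C δ : ℝ) (n X V : ℕ) : ℝ := C * X * Real.log X ^ (-δ) * (1 + Real.log V) ^ n

private theorem Qb_mono {C C' δ δ' : ℝ} {n n' X V : ℕ} (hC : 0 ≤ C) (hCC : C ≤ C') (hδ : δ' ≤ δ)
    (hn : n ≤ n') (hX : 16 ≤ X) (hV : 1 ≤ V) : Qb C δ n X V ≤ Qb C' δ' n' X V := by
  have hlogX1 : 1 ≤ Real.log X := by
    have h3 : (16 : ℝ) ≤ X := by exact_mod_cast hX
    have h1 : Real.exp 1 ≤ X := by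
      have h2 := Real.exp_one_lt_d9
      linarith
    rw [Real.le_log_iff_exp_le (by linarith)]
    exact h1
  have hlogV : 0 ≤ Real.log V := Real.log_nonneg (by exact_mod_cast hV)
  have hX0 : (0 : ℝ) ≤ X := Nat.cast_nonneg X
  have h1 : Real.log X ^ (-δ) ≤ Real.log X ^ (-δ') :=
    Real.rpow_le_rpow_of_exponent_le hlogX1 (by linarith)
  have h2 : (1 + Real.log V) ^ n ≤ (1 + Real.log V) ^ n' := pow_le_pow_right₀ (by linarith) hn
  have h3 : 0 ≤ Real.log X ^ (-δ) := Real.rpow_nonneg (by linarith) _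
  unfold Qb
  refine mul_le_mul (mul_le_mul (mul_le_mul_of_nonneg_right hCC hX0) h1 h3 ?_) h2
    (by positivity) ?_
  · exact mul_nonneg (hC.trans hCC) hX0
  · exact mul_nonneg (mul_nonneg (hC.trans hCC) hX0) (h3.trans h1)

open Classical in
/-- **The weighted engine with several activity characters.** -/
theorem engineX (D : Dat2 ι κ) (hD : D.OK)
    (hN : ∀ c : κ → ZMod 2, c ≠ 0 → ∃ C, CharB (fun q => -(D.ch ∅ c q)) C)
    (Λ : LS2 L ι κ) (hΛ : Λ.OK) (hB : Λ.B = ∅)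
    {w : L → (κ → ZMod 2) → ℝ} (hw0 : ∀ l φ, 0 ≤ w l φ)
    (hwU : ∀ U, Λ.Unl U → ∀ φ, ∑ l ∈ U, w l φ ≤ 1)
    (hwz : ∀ l, w l 0 = (Λ.m : ℝ)⁻¹) (h : L → ι → ZMod 2)
    (hh : ∀ U : Finset L, U ∈ Λ.Us → (∀ φ, ∑ l ∈ U, w l φ = 1) → ∀ l ∈ U, ∀ q, h l q = 0)
    {g : ι → ℂ} (hg : ∀ q, ‖g q‖ = 1) (ε : ℝ) (hε : 0 < ε) :
    ∃ X₀ : ℕ, ∀ X : ℕ, X₀ ≤ X →
      ‖∑ d ∈ Box ι L X, FG D Λ (hX D w h g) d -
        ∑ U ∈ univ.filter (fun U : Finset L => U ∈ Λ.Us ∧ ∀ φ, ∑ l ∈ U, w l φ = 1),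
          ∑ S ∈ Sx ι X, ∏ q ∈ S, HG D Λ (hX D w h g) U (fun _ => ∅) q‖ ≤ ε * X := by
  have hmp := hΛ.two
  have hm2 : (2 : ℝ) ≤ Λ.m := by exact_mod_cast hmp
  have hw1 : ∀ l φ, w l φ ≤ 1 := by
    intro l φ
    have h1 := hwU {l} (fun a ha b hb => by
      rw [mem_singleton.1 ha, mem_singleton.1 hb]
      unfold LS2.lk
      rw [hΛ.diag, add_zero]) φ
    rwa [sum_singleton] at h1
  have hh1 : ∀ l q, ‖hX D w h g l q‖ ≤ 1 := fun l q => by
    rw [hX_norm D hw0 h hg]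
    exact hw1 l _
  obtain ⟨C1, K1, c1, hC1, hc1, hlin⟩ := linkedW D hD Λ hΛ
  -- the sets which are not full
  have hsmall : ∀ Z : Finset L, Λ.Unl Z → (∃ φ, ∑ l ∈ Z, w l φ < 1) →
      ∃ C δ : ℝ, 0 < C ∧ 0 < δ ∧ ∀ X V : ℕ, 16 ≤ X → 1 ≤ V → V ^ (2 * Fintype.card L) ≤ X →
        ∑ d ∈ BoxS ι X V Z, ‖FG D Λ (hX D w h g) d‖ ≤ Qb C δ (Fintype.card L) X V := by
    rintro Z hZ ⟨φ, hφ⟩
    obtain ⟨M, hM1, hM⟩ := exM κ (1 - ∑ l ∈ Z, w l φ) (by linarith)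
    obtain ⟨BN, hBN⟩ := chN_CB hD hN φ
    obtain ⟨C, hC, hs⟩ := smallW D hD Λ M hM1 (chN D φ) BN hBN
    have hM0 : (0 : ℝ) < M := by exact_mod_cast (by omega : 0 < M)
    refine ⟨C, 1 / M, hC, by positivity, fun X V hx hV hVX => ?_⟩
    refine hs (hX D w h g) hh1 X V Z hx hV hVX fun q => ?_
    have e1 : ∑ l ∈ Z, ‖hX D w h g l q‖ = ∑ l ∈ Z, w l (D.a q) :=
      sum_congr rfl fun l _ => hX_norm D hw0 h hg l q
    rw [e1]
    refine ⟨hwU Z hZ _, chN_bd D φ q hM1 (hwU Z hZ _) fun h1 => ?_⟩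
    rw [h1]
    linarith
  -- the full sets
  obtain ⟨C3, hC3, hin⟩ := inbX D hD hN Λ hΛ hB hw0 hw1 hwz h hg
  have hM1 : 1 ≤ 2 * Λ.m * 2 ^ Fintype.card κ := by
    have h2 : 1 ≤ 2 ^ Fintype.card κ := Nat.one_le_two_pow
    nlinarith
  have hfull : ∀ U : Finset L, U ∈ Λ.Us → (∀ φ, ∑ l ∈ U, w l φ = 1) →
      ∃ C δ : ℝ, 0 < C ∧ 0 < δ ∧ ∀ X V : ℕ, 16 ≤ X → 1 ≤ V → V ^ (2 * Fintype.card L) ≤ X →
        ‖∑ d ∈ BoxS ι X V U, FG D Λ (hX D w h g) d -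
          ∑ S ∈ Sx ι X, ∏ q ∈ S, HG D Λ (hX D w h g) U (fun _ => ∅) q‖ ≤
          Qb C δ (Fintype.card L + 2 ^ Fintype.card κ) X V := by
    intro U hU hUf
    obtain ⟨C, hC, hb⟩ := boxX hD U (2 * Λ.m * 2 ^ Fintype.card κ) (2 ^ Fintype.card κ) hM1 C3 hC3
      (hin U hU (fun φ => (hUf φ).le) (hh U hU hUf))
    refine ⟨C, 1 / ((2 * Λ.m * 2 ^ Fintype.card κ : ℕ) : ℝ), hC, ?_, fun X V hx hV hVX => ?_⟩
    · exact one_div_pos.2 (by exact_mod_cast (by omega : 0 < 2 * Λ.m * 2 ^ Fintype.card κ))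
    · have h1 : ∑ S ∈ Sx ι X, ∏ q ∈ S, HG D Λ (hX D w h g) U (fun _ => ∅) q =
          ∑ S ∈ Sx ι X, ∑ d ∈ FamU U S, FG D Λ (hX D w h g) d := by
        refine sum_congr rfl fun S _ => ?_
        have h2 := innerW D hD.sym Λ hΛ (hX D w h g) U ((Λ.mem_Us U).1 hU).1 (fun _ => ∅) S
          (by rw [uni_empty]; exact disjoint_empty_right _)
        rw [ee_empty, e2_zero, mul_one] at h2
        simp only [prod_empty, prod_const_one, one_mul, empty_union] at h2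
        exact h2.symm
      rw [h1]
      exact hb X V hx hV hVX
  -- one bound for all the sets
  set n := Fintype.card L with hn
  set N : ℕ := n + 2 ^ Fintype.card κ with hN'
  have hall : ∀ Z : Finset L, ∃ C δ : ℝ, 0 < C ∧ 0 < δ ∧
      ((Λ.Unl Z → (∃ φ, ∑ l ∈ Z, w l φ < 1) → ∀ X V : ℕ, 16 ≤ X → 1 ≤ V →
        V ^ (2 * n) ≤ X → ∑ d ∈ BoxS ι X V Z, ‖FG D Λ (hX D w h g) d‖ ≤ Qb C δ N X V) ∧
      (Z ∈ Λ.Us → (∀ φ, ∑ l ∈ Z, w l φ = 1) → ∀ X V : ℕ, 16 ≤ X → 1 ≤ V → V ^ (2 * n) ≤ X →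
        ‖∑ d ∈ BoxS ι X V Z, FG D Λ (hX D w h g) d -
          ∑ S ∈ Sx ι X, ∏ q ∈ S, HG D Λ (hX D w h g) Z (fun _ => ∅) q‖ ≤ Qb C δ N X V)) := by
    intro Z
    by_cases h1 : Λ.Unl Z ∧ ∃ φ, ∑ l ∈ Z, w l φ < 1
    · obtain ⟨C, δ, hC, hδ, hb⟩ := hsmall Z h1.1 h1.2
      refine ⟨C, δ, hC, hδ, fun _ _ X V hx hV hVX => (hb X V hx hV hVX).trans
        (Qb_mono hC.le le_rfl le_rfl (Nat.le_add_right _ _) hx hV), fun _ h2 => ?_⟩
      obtain ⟨φ, hφ⟩ := h1.2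
      exact absurd (h2 φ) (ne_of_lt hφ)
    · by_cases h2 : Z ∈ Λ.Us ∧ ∀ φ, ∑ l ∈ Z, w l φ = 1
      · obtain ⟨C, δ, hC, hδ, hb⟩ := hfull Z h2.1 h2.2
        exact ⟨C, δ, hC, hδ, fun h3 h4 => absurd ⟨h3, h4⟩ h1, fun _ _ => hb⟩
      · exact ⟨1, 1, one_pos, one_pos, fun h3 h4 => absurd ⟨h3, h4⟩ h1,
          fun h3 h4 => absurd ⟨h3, h4⟩ h2⟩
  choose Cf δf hCf hδf hbf using hall
  obtain ⟨CC, hCC⟩ : ∃ CC : ℝ, CC = C1 + (n + 1) * ∑ Z : Finset L, Cf Z := ⟨_, rfl⟩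
  have hsumC : ∀ Z : Finset L, Cf Z ≤ ∑ Z : Finset L, Cf Z := fun Z =>
    single_le_sum (fun Z _ => (hCf Z).le) (mem_univ Z)
  obtain ⟨δ, hδ0, hδ⟩ : ∃ δ : ℝ, 0 < δ ∧ ∀ Z : Finset L, δ ≤ δf Z := by
    refine ⟨(univ : Finset (Finset L)).inf' ⟨∅, mem_univ _⟩ δf, ?_, fun Z =>
      inf'_le _ (mem_univ Z)⟩
    rw [lt_inf'_iff]
    exact fun Z _ => hδf Z
  have h2n : (0 : ℝ) < 2 ^ n := by positivity
  set e1 : ℝ := ε / (4 * 2 ^ n) with he1
  have he1p : 0 < e1 := by positivity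
  obtain ⟨X2, hX2⟩ := chooseV CC K1 N (2 * n) c1 δ e1 hc1 hδ0 he1p
  refine ⟨max X2 16, fun X hx => ?_⟩
  have hXX2 : X2 ≤ X := (le_max_left _ _).trans hx
  have hX16 : 16 ≤ X := (le_max_right _ _).trans hx
  obtain ⟨V, hV1, hVn, hVa, hVb⟩ := hX2 X hXX2
  have hXr : (0 : ℝ) ≤ X := Nat.cast_nonneg X
  have hlogX : 0 ≤ Real.log X := Real.log_natCast_nonneg X
  have hVr : (1 : ℝ) ≤ V := by exact_mod_cast hV1
  have hlogV : 0 ≤ Real.log V := Real.log_nonneg hVr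
  have hn0 : (0 : ℝ) ≤ n := Nat.cast_nonneg n
  have hS0 : 0 ≤ ∑ Z : Finset L, Cf Z := sum_nonneg fun Z _ => (hCf Z).le
  have hC1C : C1 ≤ CC := by
    rw [hCC]
    nlinarith
  set P : ℝ := (1 + Real.log X) ^ K1 * (V : ℝ) ^ (-c1) with hP
  have hP0 : 0 ≤ P := by positivity
  have hPe : CC * P ≤ e1 := by rw [hP, ← mul_assoc]; exact hVa
  set Q : ℝ := Real.log X ^ (-δ) * (1 + Real.log V) ^ N with hQ
  have hQ0 : 0 ≤ Q := by positivity
  have hQe : CC * Q ≤ e1 := by rw [hQ, ← mul_assoc]; exact hVb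
  have hQb : ∀ Z : Finset L, Qb (Cf Z) (δf Z) N X V ≤ (∑ Z : Finset L, Cf Z) * Q * X := by
    intro Z
    refine (Qb_mono (hCf Z).le (hsumC Z) (hδ Z) le_rfl hX16 hV1).trans (le_of_eq ?_)
    unfold Qb
    rw [hQ]
    ring
  have hsub : ∀ Z Z' : Finset L, Z' ⊆ Z → Λ.Unl Z → Λ.Unl Z' := fun Z Z' hs hZ l hl m hm =>
    hZ l (hs hl) m (hs hm)
  have hcard : ∀ Z : Finset L, Z.card < Λ.m → ∃ φ, ∑ l ∈ Z, w l φ < 1 := by
    intro Z hZ
    refine ⟨0, ?_⟩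
    rw [sum_congr rfl fun l _ => hwz l, sum_const, nsmul_eq_mul, ← div_eq_mul_inv,
      div_lt_one (by linarith)]
    exact_mod_cast hZ
  have hsm' : ∀ Z : Finset L, Λ.Unl Z → (∃ φ, ∑ l ∈ Z, w l φ < 1) →
      ∑ d ∈ BoxS ι X V Z, ‖FG D Λ (hX D w h g) d‖ ≤ (∑ Z : Finset L, Cf Z) * Q * X :=
    fun Z hZ hφ => ((hbf Z).1 hZ hφ X V hX16 hV1 hVn).trans (hQb Z)
  have hSQ : (∑ Z : Finset L, Cf Z) * Q * X ≤ e1 * X := by
    refine mul_le_mul_of_nonneg_right (le_trans ?_ hQe) hXr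
    refine mul_le_mul_of_nonneg_right ?_ hQ0
    rw [hCC]
    nlinarith
  -- the target for each pattern
  set t : Finset L → ℂ := fun Z => if Z ∈ Λ.Us ∧ ∀ φ, ∑ l ∈ Z, w l φ = 1 then
    ∑ S ∈ Sx ι X, ∏ q ∈ S, HG D Λ (hX D w h g) Z (fun _ => ∅) q else 0 with ht
  have hbound : ∀ Z : Finset L, ‖∑ d ∈ BoxZ ι X V Z, FG D Λ (hX D w h g) d - t Z‖ ≤
      2 * e1 * X := by
    intro Z
    by_cases hU : Λ.Unl Z
    · by_cases hc : Z ∈ Λ.Us ∧ ∀ φ, ∑ l ∈ Z, w l φ = 1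
      · have h1 : t Z = ∑ S ∈ Sx ι X, ∏ q ∈ S, HG D Λ (hX D w h g) Z (fun _ => ∅) q := if_pos hc
        rw [h1]
        have h2 := ((hbf Z).2 hc.1 hc.2 X V hX16 hV1 hVn).trans (hQb Z)
        have h3 := engx_exact (FG D Λ (hX D w h g)) X V Z
        have hZm := ((Λ.mem_Us Z).1 hc.1).2
        have h4 : ∑ l ∈ Z, ∑ d ∈ BoxS ι X V (Z.erase l), ‖FG D Λ (hX D w h g) d‖ ≤
            n * ((∑ Z : Finset L, Cf Z) * Q * X) := by
          have h5 : (Z.card : ℝ) ≤ n := by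
            rw [hn]
            exact_mod_cast Finset.card_le_univ Z
          calc ∑ l ∈ Z, ∑ d ∈ BoxS ι X V (Z.erase l), ‖FG D Λ (hX D w h g) d‖
              ≤ Z.card • ((∑ Z : Finset L, Cf Z) * Q * X) := by
                refine Finset.sum_le_card_nsmul _ _ _ fun l hl => ?_
                refine hsm' _ (hsub Z _ (erase_subset l Z) hU) (hcard _ ?_)
                rw [← hZm]
                exact Finset.card_erase_lt_of_mem hl
            _ = Z.card * ((∑ Z : Finset L, Cf Z) * Q * X) := nsmul_eq_mul _ _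
            _ ≤ n * ((∑ Z : Finset L, Cf Z) * Q * X) :=
                mul_le_mul_of_nonneg_right h5 (by positivity)
        have h6 : ∑ d ∈ BoxZ ι X V Z, FG D Λ (hX D w h g) d -
            ∑ S ∈ Sx ι X, ∏ q ∈ S, HG D Λ (hX D w h g) Z (fun _ => ∅) q =
            (∑ d ∈ BoxZ ι X V Z, FG D Λ (hX D w h g) d -
              ∑ d ∈ BoxS ι X V Z, FG D Λ (hX D w h g) d) +
            (∑ d ∈ BoxS ι X V Z, FG D Λ (hX D w h g) d -
              ∑ S ∈ Sx ι X, ∏ q ∈ S, HG D Λ (hX D w h g) Z (fun _ => ∅) q) := by ring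
        rw [h6]
        refine (norm_add_le _ _).trans ((add_le_add (h3.trans h4) h2).trans ?_)
        calc n * ((∑ Z : Finset L, Cf Z) * Q * X) + (∑ Z : Finset L, Cf Z) * Q * X
            = ((n + 1) * ∑ Z : Finset L, Cf Z) * Q * X := by ring
          _ ≤ CC * Q * X := by
              refine mul_le_mul_of_nonneg_right (mul_le_mul_of_nonneg_right ?_ hQ0) hXr
              rw [hCC]
              linarith
          _ ≤ e1 * X := mul_le_mul_of_nonneg_right hQe hXr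
          _ ≤ 2 * e1 * X := by nlinarith
      · have h1 : t Z = 0 := if_neg hc
        rw [h1, sub_zero]
        have hφ : ∃ φ, ∑ l ∈ Z, w l φ < 1 := by
          by_cases h2 : Z.card = Λ.m
          · by_contra h3
            push Not at h3
            exact hc ⟨(Λ.mem_Us Z).2 ⟨hU, h2⟩, fun φ => le_antisymm (hwU Z hU φ) (h3 φ)⟩
          · exact hcard Z (lt_of_le_of_ne (hΛ.k1 Z hU) h2)
        have h2 := (norm_sum_le (BoxZ ι X V Z) (fun d => FG D Λ (hX D w h g) d)).trans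
          ((engx_small (FG D Λ (hX D w h g)) X V Z).trans (hsm' Z hU hφ))
        refine h2.trans (hSQ.trans ?_)
        nlinarith
    · have hc : ¬ (Z ∈ Λ.Us ∧ ∀ φ, ∑ l ∈ Z, w l φ = 1) := fun h => hU ((Λ.mem_Us Z).1 h.1).1
      have h1 : t Z = 0 := if_neg hc
      rw [h1, sub_zero]
      unfold LS2.Unl at hU
      push Not at hU
      obtain ⟨l0, hl0, l1, hl1, hl⟩ := hU
      refine (hlin (hX D w h g) hh1 X V Z l0 l1 (by omega) hV1 hl0 hl1 hl).trans ?_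
      calc C1 * X * (1 + Real.log X) ^ K1 * (V : ℝ) ^ (-c1) = (C1 * P) * X := by rw [hP]; ring
        _ ≤ (CC * P) * X := by
            refine mul_le_mul_of_nonneg_right ?_ hXr
            exact mul_le_mul_of_nonneg_right hC1C hP0
        _ ≤ e1 * X := mul_le_mul_of_nonneg_right hPe hXr
        _ ≤ 2 * e1 * X := by nlinarith
  have ht2 : ∑ Z : Finset L, t Z =
      ∑ U ∈ univ.filter (fun U : Finset L => U ∈ Λ.Us ∧ ∀ φ, ∑ l ∈ U, w l φ = 1),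
        ∑ S ∈ Sx ι X, ∏ q ∈ S, HG D Λ (hX D w h g) U (fun _ => ∅) q := by
    rw [sum_filter]
  rw [engx_part X V, ← ht2, ← Finset.sum_sub_distrib]
  refine (norm_sum_le _ _).trans ((Finset.sum_le_sum fun Z _ => hbound Z).trans ?_)
  rw [Finset.sum_const, Finset.card_univ, Fintype.card_finset, nsmul_eq_mul, he1]
  push_cast
  have : (2 : ℝ) ^ Fintype.card L * (2 * (ε / (4 * 2 ^ n)) * X) = ε / 2 * X := by
    rw [← hn]
    field_simp
    ring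
  rw [this]
  nlinarith

end

end Pool.Agent.Lib.MP_1a91b9_ntQ.DW
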