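import Pool.Agent.Lib.MP_1a91b9_ntH.D.DivLog
import Pool.Agent.Lib.MP_1a91b9_ntH.D.Split
import Pool.Agent.Lib.MP_1a91b9_ntH.D.FamProd
import Pool.Agent.Lib.MP_1a91b9_ntH.D.Exp
import Pool.Agent.Lib.MP_1a91b9_ntQ.DW.DefsW
import Pool.Agent.Lib.MP_1a91b9_ntQ.DW.UBf

/-!
# Weighted engine (phase 8): patterns with few large variables
-/

set_option autoImplicit false
set_option linter.unusedSectionVars false

namespace Pool.Agent.Lib.MP_1a91b9_ntQ.DW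

open Finset Pool.Agent.Lib.MP_1a91b9_ntH
open Pool.Agent.Lib.MP_1a91b9_ntQ Pool.Agent.Lib.MP_1a91b9_ntQ.D

noncomputable section

variable {ι : Type} [DecidableEq ι] [PS ι] {L : Type} [Fintype L] [DecidableEq L] {κ : Type} [Fintype κ]

private theorem famU_prodR (U : Finset L) (S : Finset ι) (g : L → ι → ℝ) :
    ∑ d ∈ FamU U S, ∏ l, ∏ q ∈ d l, g l q = ∏ q ∈ S, ∑ l ∈ U, g l q := by
  have h := famU_prodC U S (fun l q => ((g l q : ℝ) : ℂ))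
  exact_mod_cast h

private theorem smw_inner (D : Dat2 ι κ) (Λ : LS2 L ι κ) {h : L → ι → ℂ}
    (hh : ∀ l q, ‖h l q‖ ≤ 1) (Z : Finset L) (S : Finset ι) (b : L → Finset ι)
    (hS : Disjoint S (uni b)) :
    ∑ d ∈ FamU Z S, ‖FG D Λ h (fun l => b l ∪ d l)‖ ≤ ∏ q ∈ S, ∑ l ∈ Z, ‖h l q‖ := by
  rw [← famU_prodR Z S fun l q => ‖h l q‖]
  refine sum_le_sum fun d hd => ?_
  obtain ⟨h1, h2, h3⟩ := mem_FamU.1 hd
  have h4 : Disjoint (uni b) (uni d) := by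
    rw [h2]
    exact hS.symm
  unfold FG
  rw [norm_mul, norm_e2, mul_one, norm_prod]
  refine prod_le_prod (fun l _ => norm_nonneg _) fun l _ => ?_
  rw [norm_prod, prod_union (disjoint_of_subset_left (sub_uni b l)
      (disjoint_of_subset_right (sub_uni d l) h4))]
  have h5 : ∏ q ∈ b l, ‖h l q‖ ≤ 1 := prod_le_one (fun q _ => norm_nonneg _) fun q _ => hh l q
  exact mul_le_of_le_one_left (prod_nonneg fun q _ => norm_nonneg _) h5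

theorem smallW (D : Dat2 ι κ) (hD : D.OK) (Λ : LS2 L ι κ) {τ : Type} [Fintype τ] (M : ℕ)
    (hM : 1 ≤ M) (χ : τ → ι → ℝ) (B : τ → ℝ) (hχ : ∀ i, CharB (χ i) (B i)) :
    ∃ C : ℝ, 0 < C ∧ ∀ h : L → ι → ℂ, (∀ l q, ‖h l q‖ ≤ 1) →
      ∀ (X V : ℕ) (Z : Finset L), 16 ≤ X → 1 ≤ V → V ^ (2 * Fintype.card L) ≤ X →
      (∀ q, ∑ l ∈ Z, ‖h l q‖ ≤ 1 ∧ ∑ l ∈ Z, ‖h l q‖ ≤ ((M - 1 : ℝ) + ∑ i, χ i q) / M) →
      ∑ d ∈ BoxS ι X V Z, ‖FG D Λ h d‖ ≤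
        C * X * Real.log X ^ (-(1 / (M : ℝ))) * (1 + Real.log V) ^ (Fintype.card L) := by
  classical
  obtain ⟨C1, h1⟩ := hD.cheb
  obtain ⟨C2, h2⟩ := hD.zt
  obtain ⟨K, hK, hub⟩ := ubf (τ := τ) h1 h2 M hM
  obtain ⟨H, hH1, hH⟩ := harm h2
  have hM1 : (1 : ℝ) ≤ M := by exact_mod_cast hM
  have hM0 : (0 : ℝ) < M := by linarith
  have hH0 : (0 : ℝ) < H := by linarith
  set P : ℝ := (∏ i, B i) ^ (1 / (M : ℝ)) with hP
  have hPB : 0 < ∏ i, B i := prod_pos fun i _ => by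
    have := (hχ i).hB
    linarith
  have hP0 : 0 < P := Real.rpow_pos_of_pos hPB _
  refine ⟨4 * K * P * H ^ Fintype.card L, by positivity, fun h hh X V Z hX hV hVX hZ => ?_⟩
  have hlogX : 0 ≤ Real.log X := Real.log_natCast_nonneg X
  have hrp : 0 ≤ Real.log X ^ (-(1 / (M : ℝ))) := Real.rpow_nonneg hlogX _
  rw [sum_split X V hV Z (fun d => ‖FG D Λ h d‖)]
  have key : ∀ b ∈ SmB ι V Z,
      ∑ S ∈ (Sx ι (X / nmf b)).filter (fun S => Disjoint S (uni b)),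
        ∑ d ∈ FamU Z S, ‖FG D Λ h (fun l => b l ∪ d l)‖ ≤
      4 * K * P * X * Real.log X ^ (-(1 / (M : ℝ))) * ((1 : ℝ) / nmf b) := by
    intro b hb
    have hP1 : 1 ≤ nmf b := one_le_nmf b
    have hPX : nmf b ^ 2 ≤ X := by
      refine le_trans (Nat.pow_le_pow_left (nmf_le_pow hb) 2) ?_
      rw [← pow_mul, mul_comm]
      exact hVX
    have hδ0 : (0 : ℝ) < 1 / (M : ℝ) := by positivity
    have hδ1 : 1 / (M : ℝ) ≤ 1 := by
      rw [div_le_one hM0]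
      linarith
    obtain ⟨hx2, hxX, hlog⟩ := div_log X (nmf b) (1 / (M : ℝ)) hX hP1 hPX hδ0 hδ1
    have hw : ∀ q : ι, 0 ≤ (∑ l ∈ Z, ‖h l q‖) ∧ (∑ l ∈ Z, ‖h l q‖) ≤ 1 ∧
        (∑ l ∈ Z, ‖h l q‖) ≤ ((M - 1 : ℝ) + ∑ i, χ i q) / M := fun q =>
      ⟨sum_nonneg fun l _ => norm_nonneg _, (hZ q).1, (hZ q).2⟩
    have hu := hub χ B hχ (fun q => ∑ l ∈ Z, ‖h l q‖) hw (X / nmf b) hx2
    calc ∑ S ∈ (Sx ι (X / nmf b)).filter (fun S => Disjoint S (uni b)),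
          ∑ d ∈ FamU Z S, ‖FG D Λ h (fun l => b l ∪ d l)‖
        ≤ ∑ S ∈ (Sx ι (X / nmf b)).filter (fun S => Disjoint S (uni b)),
          ∏ q ∈ S, ∑ l ∈ Z, ‖h l q‖ :=
          sum_le_sum fun S hS => smw_inner D Λ hh Z S b (mem_filter.1 hS).2
      _ ≤ ∑ S ∈ Sx ι (X / nmf b), ∏ q ∈ S, ∑ l ∈ Z, ‖h l q‖ :=
          sum_le_sum_of_subset_of_nonneg (filter_subset _ _)
            fun S _ _ => prod_nonneg fun q _ => (hw q).1
      _ ≤ K * ((X / nmf b : ℕ) : ℝ) * Real.log ((X / nmf b : ℕ) : ℝ) ^ (-(1 / (M : ℝ))) * P := hu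
      _ ≤ K * (X * (1 / nmf b)) * (4 * Real.log X ^ (-(1 / (M : ℝ)))) * P := by
          refine mul_le_mul_of_nonneg_right ?_ hP0.le
          refine mul_le_mul ?_ hlog (Real.rpow_nonneg (Real.log_natCast_nonneg _) _) (by positivity)
          exact mul_le_mul_of_nonneg_left hxX hK.le
      _ = 4 * K * P * X * Real.log X ^ (-(1 / (M : ℝ))) * ((1 : ℝ) / nmf b) := by ring
  calc ∑ b ∈ SmB ι V Z, ∑ S ∈ (Sx ι (X / nmf b)).filter (fun S => Disjoint S (uni b)),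
        ∑ d ∈ FamU Z S, ‖FG D Λ h (fun l => b l ∪ d l)‖
      ≤ ∑ b ∈ SmB ι V Z, 4 * K * P * X * Real.log X ^ (-(1 / (M : ℝ))) * ((1 : ℝ) / nmf b) :=
        sum_le_sum key
    _ = 4 * K * P * X * Real.log X ^ (-(1 / (M : ℝ))) * ∑ b ∈ SmB ι V Z, (1 : ℝ) / nmf b := by
        rw [mul_sum]
    _ ≤ 4 * K * P * X * Real.log X ^ (-(1 / (M : ℝ))) *
          (H ^ Fintype.card L * (1 + Real.log V) ^ Fintype.card L) :=
        mul_le_mul_of_nonneg_left (harm_fam hH1 hH V hV Z) (by positivity)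
    _ = 4 * K * P * H ^ Fintype.card L * X * Real.log X ^ (-(1 / (M : ℝ))) *
          (1 + Real.log V) ^ (Fintype.card L) := by ring

end

end Pool.Agent.Lib.MP_1a91b9_ntQ.DW
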