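import Pool.Agent.Lib.MP_1a91b9_ntQ.D.InnerB
import Pool.Agent.Lib.MP_1a91b9_ntQ.D.InnerT
import Pool.Agent.Lib.MP_1a91b9_ntQ.DW.SmallW

/-!
# Weighted engine with several activity characters: bounds for the local factors

The weight `w l φ` depends on the label and on the vector `φ = D.a q` of the class characters.
-/

set_option autoImplicit false
set_option linter.unusedSectionVars false

namespace Pool.Agent.Lib.MP_1a91b9_ntQ.DW

open Finset Pool.Agent.Lib.MP_1a91b9_ntH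
open Pool.Agent.Lib.MP_1a91b9_ntQ Pool.Agent.Lib.MP_1a91b9_ntQ.D

noncomputable section

variable {ι : Type} [DecidableEq ι] {L : Type} [Fintype L] [DecidableEq L] {κ : Type} [Fintype κ]
  [DecidableEq κ]

/-- The weights with a multiplicative factor and an extra exponent. -/
def hX (D : Dat2 ι κ) (w : L → (κ → ZMod 2) → ℝ) (h : L → ι → ZMod 2) (g : ι → ℂ) (l : L)
    (q : ι) : ℂ := g q * (((w l (D.a q) : ℝ) : ℂ) * e2 (h l q))

theorem hX_norm (D : Dat2 ι κ) {w : L → (κ → ZMod 2) → ℝ} (hw0 : ∀ l φ, 0 ≤ w l φ)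
    (h : L → ι → ZMod 2) {g : ι → ℂ} (hg : ∀ q, ‖g q‖ = 1) (l : L) (q : ι) :
    ‖hX D w h g l q‖ = w l (D.a q) := by
  unfold hX
  rw [norm_mul, norm_mul, norm_e2, hg, one_mul, mul_one, Complex.norm_real, Real.norm_eq_abs,
    abs_of_nonneg (hw0 l _)]

private theorem xw_two (x : ZMod 2) : x = 0 ∨ x = 1 := by
  revert x
  decide

/-- Orthogonality of the characters of `κ → ZMod 2`. -/
private theorem xw_orth (x : κ → ZMod 2) :
    ∑ c : κ → ZMod 2, sg (∑ j, c j * x j) = if x = 0 then (2 : ℝ) ^ Fintype.card κ else 0 := by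
  have h1 : ∀ c : κ → ZMod 2, sg (∑ j, c j * x j) = ∏ j, sg (c j * x j) := fun c =>
    sg2_sum univ fun j => c j * x j
  rw [sum_congr rfl fun c _ => h1 c,
    ← Fintype.piFinset_univ,
    ← prod_univ_sum (fun _ : κ => (univ : Finset (ZMod 2))) fun j t => sg (t * x j)]
  have h2 : ∀ j, ∑ t : ZMod 2, sg (t * x j) = if x j = 0 then (2 : ℝ) else 0 := by
    intro j
    have h3 : (univ : Finset (ZMod 2)) = {0, 1} := by decide
    rw [h3, sum_pair (by decide), zero_mul, one_mul]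
    rcases xw_two (x j) with h4 | h4
    · rw [h4, sg2_zero, if_pos rfl]
      norm_num
    · rw [h4, sg2_zero, sg2_one, if_neg (by decide)]
      norm_num
  simp only [h2]
  split_ifs with h
  · subst h
    simp
  · obtain ⟨j, hj⟩ := Function.ne_iff.1 h
    exact prod_eq_zero (mem_univ j) (if_neg hj)

/-- The class characters which are not trivial. -/
abbrev NZ (κ : Type) : Type := {c : κ → ZMod 2 // c ≠ 0}

/-- The characters of a class vector, with the signs of `φ₀`. -/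
def chN (D : Dat2 ι κ) (φ₀ : κ → ZMod 2) (c : NZ κ) (q : ι) : ℝ :=
  -(sg (∑ j, c.1 j * φ₀ j) * sg (∑ j, c.1 j * D.a q j))

theorem ch_empty (D : Dat2 ι κ) (c : κ → ZMod 2) (q : ι) :
    D.ch ∅ c q = sg (∑ j, c j * D.a q j) := by
  unfold Dat2.ch Dat2.ex1
  rw [if_neg (notMem_empty q), sum_empty, add_zero]

theorem chN_sum (D : Dat2 ι κ) (φ₀ : κ → ZMod 2) (q : ι) :
    ∑ c, chN D φ₀ c q = 1 - if D.a q = φ₀ then (2 : ℝ) ^ Fintype.card κ else 0 := by
  have e2 := xw_orth (fun j => φ₀ j + D.a q j)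
  have e3 : (∑ c : κ → ZMod 2, sg (∑ j, c j * (φ₀ j + D.a q j))) =
      1 - ∑ c, chN D φ₀ c q := by
    rw [Fintype.sum_eq_add_sum_subtype_ne
      (fun c : κ → ZMod 2 => sg (∑ j, c j * (φ₀ j + D.a q j))) 0]
    have e4 : sg (∑ j, (0 : κ → ZMod 2) j * (φ₀ j + D.a q j)) = 1 := by
      simp [sg]
    rw [e4, sub_eq_add_neg, ← sum_neg_distrib]
    congr 1
    refine sum_congr rfl fun c _ => ?_
    unfold chN
    rw [neg_neg, ← sg2_add, ← sum_add_distrib]
    congr 1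
    refine sum_congr rfl fun j _ => ?_
    ring
  have e5 : ((fun j => φ₀ j + D.a q j) = 0) ↔ D.a q = φ₀ := by
    have h2 : ∀ x y : ZMod 2, x + y = 0 ↔ y = x := by decide
    constructor
    · intro h
      funext j
      exact (h2 _ _).1 (congrFun h j)
    · intro h
      funext j
      exact (h2 _ _).2 (congrFun h j)
  rw [e3] at e2
  rw [if_congr e5 rfl rfl] at e2
  linarith

/-- The nontrivial class characters have bounded Euler products, with both signs. -/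
theorem chN_CB [PS ι] {D : Dat2 ι κ} (hD : D.OK)
    (hN : ∀ c : κ → ZMod 2, c ≠ 0 → ∃ C, CharB (fun q => -(D.ch ∅ c q)) C)
    (φ₀ : κ → ZMod 2) : ∃ B : NZ κ → ℝ, ∀ c, CharB (chN D φ₀ c) (B c) := by
  obtain ⟨C3, hC3⟩ := hD.cb
  have hB : ∀ c : NZ κ, ∃ B, CharB (chN D φ₀ c) B := by
    intro c
    rcases xw_two (∑ j, c.1 j * φ₀ j) with h2 | h2
    · obtain ⟨B, hB⟩ := hN c.1 c.2
      refine ⟨B, ?_⟩
      have h3 : chN D φ₀ c = fun q => -(D.ch ∅ c.1 q) := by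
        funext q
        unfold chN
        rw [h2, sg2_zero, one_mul, ch_empty]
      rw [h3]
      exact hB
    · refine ⟨C3 * (1 + Real.log (nm (∅ : Finset ι))), ?_⟩
      have h3 : chN D φ₀ c = D.ch ∅ c.1 := by
        funext q
        unfold chN
        rw [h2, sg2_one, neg_mul, one_mul, neg_neg, ch_empty]
      rw [h3]
      exact hC3 ∅ c.1 (Or.inr c.2)
  choose B hB using hB
  exact ⟨B, hB⟩

/-- A function which is at most `1`, and at most `1 - θ` where `D.a q = φ₀`. -/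
theorem chN_bd (D : Dat2 ι κ) (φ₀ : κ → ZMod 2) {η : ℝ} (q : ι) {M : ℕ} (hM : 1 ≤ M)
    (h1 : η ≤ 1) (h2 : D.a q = φ₀ → η ≤ 1 - 2 ^ Fintype.card κ / (M : ℝ)) :
    η ≤ ((M - 1 : ℝ) + ∑ c, chN D φ₀ c q) / M := by
  have hM0 : (0 : ℝ) < M := by exact_mod_cast (by omega : 0 < M)
  rw [chN_sum, le_div_iff₀ hM0]
  split_ifs with h3
  · have h4 := h2 h3
    have h5 : η * M ≤ (1 - 2 ^ Fintype.card κ / (M : ℝ)) * M :=
      mul_le_mul_of_nonneg_right h4 hM0.le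
    have h6 : (1 - 2 ^ Fintype.card κ / (M : ℝ)) * M = M - 2 ^ Fintype.card κ := by
      field_simp
    linarith
  · have h4 : η * M ≤ 1 * M := mul_le_mul_of_nonneg_right h1 hM0.le
    linarith

/-- A natural number for the saving. -/
theorem exM (κ : Type) [Fintype κ] (θ : ℝ) (hθ : 0 < θ) :
    ∃ M : ℕ, 1 ≤ M ∧ 2 ^ Fintype.card κ / (M : ℝ) ≤ θ := by
  obtain ⟨M, hM⟩ := exists_nat_ge ((2 : ℝ) ^ Fintype.card κ / θ + 1)
  have h1 : (0 : ℝ) < 2 ^ Fintype.card κ / θ := by positivity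
  have h2 : (1 : ℝ) ≤ M := by linarith
  refine ⟨M, by exact_mod_cast h2, ?_⟩
  have h3 : (2 : ℝ) ^ Fintype.card κ / θ ≤ M := by linarith
  rw [div_le_iff₀ hθ] at h3
  rw [div_le_iff₀ (by linarith)]
  linarith

/-! ### The local factor of a full set -/

/-- The characters which bound the local factor when the small family is not empty. -/
def chB (D : Dat2 ι κ) (Λ : LS2 L ι κ) (b : L → Finset ι) (l l' : L) :
    NZ κ ⊕ (κ → ZMod 2) → ι → ℝ
  | Sum.inl c, q => chN D 0 c q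
  | Sum.inr c, q => D.cht (TT Λ b l l') (tt Λ b l l') (c + (Λ.c l - Λ.c l')) q

theorem chB_sum (D : Dat2 ι κ) (Λ : LS2 L ι κ) (b : L → Finset ι) (l l' : L) (q : ι)
    (hq : q ∉ TT Λ b l l') :
    ∑ i, chB D Λ b l l' i q = 1 - if D.a q = 0 then (2 : ℝ) ^ Fintype.card κ *
      (1 - sg (D.ex (TT Λ b l l') (tt Λ b l l') (Λ.c l - Λ.c l') q)) else 0 := by
  have h1 : ∀ c : κ → ZMod 2, chB D Λ b l l' (Sum.inr c) q = sg (∑ j, c j * D.a q j) *
      sg (D.ex (TT Λ b l l') (tt Λ b l l') (Λ.c l - Λ.c l') q) := by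
    intro c
    show D.cht (TT Λ b l l') (tt Λ b l l') (c + (Λ.c l - Λ.c l')) q = _
    unfold Dat2.cht
    rw [if_neg hq, ← sg2_add]
    congr 1
    unfold Dat2.ex
    simp only [Pi.add_apply, add_mul, sum_add_distrib]
    ring
  rw [Fintype.sum_sum_type, sum_congr rfl fun c _ => h1 c, ← sum_mul, xw_orth]
  have h2 : ∑ c : NZ κ, chB D Λ b l l' (Sum.inl c) q = ∑ c, chN D 0 c q := rfl
  rw [h2, chN_sum]
  split_ifs <;> ring

private theorem xw_norm_add (a b : ZMod 2) : ‖e2 a + e2 b‖ ≤ 3 / 2 + sg (a - b) / 2 := by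
  have h : ∀ x : ZMod 2, x = 0 ∨ x = 1 := by decide
  have h2 : (0 : ZMod 2) - 1 = 1 := by decide
  have h3 : ‖(1 : ℂ) + 1‖ = 2 := by norm_num
  have h4 : ‖(-1 : ℂ) + -1‖ = 2 := by norm_num
  rcases h a with rfl | rfl <;> rcases h b with rfl | rfl <;>
    simp only [sub_self, sub_zero, h2, sg2_zero, sg2_one, e2_zero, e2_one, add_neg_cancel,
      neg_add_cancel, norm_zero, h3, h4] <;> norm_num

private theorem xw_norm_sum (U : Finset L) (x : L → ZMod 2) (l l' : L) (hl : l ∈ U) (hl' : l' ∈ U)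
    (hne : l ≠ l') :
    ‖∑ k ∈ U, e2 (x k)‖ ≤ ((2 * U.card - 1 : ℝ) + sg (x l - x l')) / 2 := by
  have h1 : l' ∈ U.erase l := mem_erase.2 ⟨hne.symm, hl'⟩
  have e1 : ∑ k ∈ U, e2 (x k) = (e2 (x l) + e2 (x l')) + ∑ k ∈ (U.erase l).erase l', e2 (x k) := by
    rw [← add_sum_erase U _ hl, ← add_sum_erase (U.erase l) _ h1]
    ring
  have c1 : (((U.erase l).erase l').card : ℝ) = (U.card : ℝ) - 2 := by
    have a1 := card_erase_add_one hl
    have a2 := card_erase_add_one h1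
    have a3 : ((U.erase l).erase l').card + 2 = U.card := by omega
    rw [← a3]
    push_cast
    ring
  rw [e1]
  have h2 : ‖∑ k ∈ (U.erase l).erase l', e2 (x k)‖ ≤ (U.card : ℝ) - 2 := by
    refine (norm_sum_le _ _).trans ?_
    rw [← c1]
    simp only [norm_e2, sum_const, nsmul_eq_mul, mul_one]
    exact le_refl _
  have h3 := xw_norm_add (x l) (x l')
  have h4 := norm_add_le (e2 (x l) + e2 (x l')) (∑ k ∈ (U.erase l).erase l', e2 (x k))
  linarith

theorem HX_le (D : Dat2 ι κ) (Λ : LS2 L ι κ) {w : L → (κ → ZMod 2) → ℝ}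
    (hw0 : ∀ l φ, 0 ≤ w l φ) (h : L → ι → ZMod 2) {g : ι → ℂ} (hg : ∀ q, ‖g q‖ = 1)
    (U : Finset L) (b : L → Finset ι) (q : ι) :
    ‖HG D Λ (hX D w h g) U b q‖ ≤ ∑ l ∈ U, w l (D.a q) := by
  unfold HG
  refine (norm_sum_le _ _).trans (le_of_eq ?_)
  refine sum_congr rfl fun l _ => ?_
  rw [norm_mul, norm_e2, mul_one, hX_norm D hw0 h hg]

theorem HX_bd (D : Dat2 ι κ) (hD : D.Sym) (Λ : LS2 L ι κ) (hΛ : Λ.OK) (hB : Λ.B = ∅)
    {w : L → (κ → ZMod 2) → ℝ} (hw0 : ∀ l φ, 0 ≤ w l φ)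
    (hwz : ∀ l, w l 0 = (Λ.m : ℝ)⁻¹) (h : L → ι → ZMod 2) {g : ι → ℂ} (hg : ∀ q, ‖g q‖ = 1)
    (U : Finset L) (hU : U.card = Λ.m) (hU1 : ∀ φ, ∑ l ∈ U, w l φ ≤ 1)
    (hh : ∀ l ∈ U, ∀ q, h l q = 0) (b : L → Finset ι) (l l' : L) (hl : l ∈ U) (hl' : l' ∈ U)
    (hne : l ≠ l') (q : ι) (hq : q ∉ uni b) :
    ‖HG D Λ (hX D w h g) U b q‖ ≤ (((2 * Λ.m * 2 ^ Fintype.card κ : ℕ) - 1 : ℝ) +
      ∑ i, chB D Λ b l l' i q) / (2 * Λ.m * 2 ^ Fintype.card κ : ℕ) := by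
  have hm2 : (2 : ℝ) ≤ Λ.m := by exact_mod_cast hΛ.two
  have hm0 : (0 : ℝ) < Λ.m := by linarith
  have hn0 : (0 : ℝ) < 2 ^ Fintype.card κ := by positivity
  have hT : q ∉ TT Λ b l l' := fun h1 => by
    rcases mem_union.1 (TT_sub Λ b l l' h1) with h2 | h2
    · rw [hB] at h2
      exact absurd h2 (notMem_empty _)
    · exact hq h2
  have hx := xq_sub D hD Λ b l l' q hq
  rw [chB_sum D Λ b l l' q hT, ← hx]
  push_cast
  rw [le_div_iff₀ (by positivity)]
  split_ifs with h0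
  · have h2 : HG D Λ (hX D w h g) U b q = g q * ((Λ.m : ℂ)⁻¹ * ∑ k ∈ U, e2 (xq D Λ b k q)) := by
      unfold HG
      rw [mul_sum, mul_sum]
      refine sum_congr rfl fun k hk => ?_
      unfold hX
      rw [h0, hwz, hh k hk, e2_zero]
      push_cast
      ring
    have h4 := xw_norm_sum U (fun k => xq D Λ b k q) l l' hl hl' hne
    rw [hU] at h4
    rw [h2, norm_mul, hg, one_mul, norm_mul, norm_inv, Complex.norm_natCast]
    calc (Λ.m : ℝ)⁻¹ * ‖∑ k ∈ U, e2 (xq D Λ b k q)‖ * (2 * Λ.m * 2 ^ Fintype.card κ)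
        = ‖∑ k ∈ U, e2 (xq D Λ b k q)‖ * (2 * 2 ^ Fintype.card κ) := by
          field_simp
      _ ≤ (((2 * Λ.m - 1 : ℝ) + sg (xq D Λ b l q - xq D Λ b l' q)) / 2) *
          (2 * 2 ^ Fintype.card κ) := mul_le_mul_of_nonneg_right h4 (by positivity)
      _ = _ := by ring
  · have h3 : ‖HG D Λ (hX D w h g) U b q‖ ≤ 1 := (HX_le D Λ hw0 h hg U b q).trans (hU1 _)
    have h5 : ‖HG D Λ (hX D w h g) U b q‖ * (2 * Λ.m * 2 ^ Fintype.card κ) ≤
        1 * (2 * Λ.m * 2 ^ Fintype.card κ) := mul_le_mul_of_nonneg_right h3 (by positivity)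
    linarith

end

end Pool.Agent.Lib.MP_1a91b9_ntQ.DW
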